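import Pool.Agent.PAC.Strings

/-!
# Isolated paths are dense in a tree all of whose paths are computable
-/

namespace Pool.Agent.PAC

/-- initial segment of length `n` -/
def res (f : ℕ → Bool) (n : ℕ) : List Bool := List.ofFn (fun i : Fin n => f i)

theorem res_succ (f : ℕ → Bool) (n : ℕ) : res f (n + 1) = res f n ++ [f n] := by
  unfold res
  rw [List.ofFn_succ', List.concat_eq_append]
  rfl

theorem res_length (f : ℕ → Bool) (n : ℕ) : (res f n).length = n := by
  unfold res; simp

theorem res_inj {f h : ℕ → Bool} {n : ℕ} (H : res f n = res h n) : ∀ i < n, f i = h i := by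
  intro i hi
  unfold res at H
  have := List.ofFn_injective H
  exact congrFun this ⟨i, hi⟩

theorem res_congr {f h : ℕ → Bool} {n : ℕ} (H : ∀ i < n, f i = h i) : res f n = res h n := by
  unfold res
  congr 1
  funext i
  exact H i i.2

theorem res_mono {f h : ℕ → Bool} {n m : ℕ} (hnm : n ≤ m) (H : res f m = res h m) :
    res f n = res h n :=
  res_congr fun i hi => res_inj H i (lt_of_lt_of_le hi hnm)

section
variable {T : Set (List Bool)}

theorem exists_path (hpre : ∀ σ τ : List Bool, σ ++ τ ∈ T → σ ∈ T)
    (hde : ∀ σ ∈ T, ∃ b : Bool, σ ++ [b] ∈ T) {σ : List Bool} (hσ : σ ∈ T) :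
    ∃ f : ℕ → Bool, (∀ n, res f n ∈ T) ∧ res f σ.length = σ := by
  classical
  choose! nx hnx using hde
  obtain ⟨u, hu0, hus⟩ : ∃ u : ℕ → List Bool, u 0 = σ ∧ ∀ n, u (n + 1) = u n ++ [nx (u n)] :=
    ⟨fun n => Nat.rec σ (fun _ l => l ++ [nx l]) n, rfl, fun n => rfl⟩
  have huT : ∀ n, u n ∈ T := by
    intro n
    induction n with
    | zero => rw [hu0]; exact hσ
    | succ n ih => rw [hus]; exact hnx _ ih
  have hulen : ∀ n, (u n).length = σ.length + n := by
    intro n
    induction n with
    | zero => rw [hu0]; rfl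
    | succ n ih => rw [hus]; simp [ih]; omega
  have hres : ∀ n, res (fun i => (u (i + 1)).getD i false) n = (u n).take n := by
    intro n
    induction n with
    | zero => rfl
    | succ n ih =>
      rw [res_succ, ih]
      have hlt : n < (u (n + 1)).length := by rw [hulen]; omega
      rw [List.take_succ_eq_append_getElem hlt]
      congr 1
      · rw [hus, List.take_append_of_le_length]
        rw [hulen]; omega
      · rw [List.getD_eq_getElem _ _ hlt]
  refine ⟨fun i => (u (i + 1)).getD i false, ?_, ?_⟩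
  · intro n
    rw [hres]
    apply hpre _ ((u n).drop n)
    rw [List.take_append_drop]
    exact huT n
  · rw [hres]
    have hpref : ∀ n, σ <+: u n := by
      intro n
      induction n with
      | zero => rw [hu0]
      | succ n ih => rw [hus]; exact ih.trans (List.prefix_append _ _)
    exact (List.prefix_iff_eq_take.1 (hpref _)).symm

theorem isClosed_C (T : Set (List Bool)) (σ : List Bool) :
    IsClosed {f : ℕ → Bool | (∀ n, res f n ∈ T) ∧ res f σ.length = σ} := by
  have hcont : ∀ n, Continuous (fun f : ℕ → Bool => (fun i : Fin n => f i)) := fun n =>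
    continuous_pi fun i => continuous_apply _
  have hcl : ∀ (n : ℕ) (S : Set (List Bool)), IsClosed {f : ℕ → Bool | res f n ∈ S} := by
    intro n S
    have : {f : ℕ → Bool | res f n ∈ S} =
        (fun f : ℕ → Bool => (fun i : Fin n => f i)) ⁻¹' {v | List.ofFn v ∈ S} := rfl
    rw [this]
    exact IsClosed.preimage (hcont n) (isClosed_discrete _)
  have : {f : ℕ → Bool | (∀ n, res f n ∈ T) ∧ res f σ.length = σ} =
      (⋂ n, {f : ℕ → Bool | res f n ∈ T}) ∩ {f : ℕ → Bool | res f σ.length ∈ ({σ} : Set (List Bool))} := by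
    ext f
    simp
  rw [this]
  exact (isClosed_iInter fun n => hcl n T).inter (hcl _ _)

theorem exists_isolated (hpre : ∀ σ τ : List Bool, σ ++ τ ∈ T → σ ∈ T)
    (hde : ∀ σ ∈ T, ∃ b : Bool, σ ++ [b] ∈ T)
    (hpac : ∀ f : ℕ → Bool, (∀ n, res f n ∈ T) → Computable f) {σ : List Bool} (hσ : σ ∈ T) :
    ∃ f : ℕ → Bool, (∀ n, res f n ∈ T) ∧ res f σ.length = σ ∧
      ∃ N, ∀ h : ℕ → Bool, (∀ n, res h n ∈ T) → res h N = res f N → h = f := by
  classical
  set C : Set (ℕ → Bool) := {f : ℕ → Bool | (∀ n, res f n ∈ T) ∧ res f σ.length = σ} with hC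
  have hclosed : IsClosed C := isClosed_C T σ
  have : CompactSpace C := isCompact_iff_compactSpace.1 hclosed.isCompact
  obtain ⟨f0, hf0⟩ := exists_path hpre hde hσ
  have : Nonempty C := ⟨⟨f0, hf0⟩⟩
  have : Countable C := by
    have hinj : Function.Injective (fun f : C =>
        (⟨fun n => (f.1 n).toNat, (Primrec.dom_bool Bool.toNat).to_comp.comp (hpac f.1 f.2.1)⟩ :
          {f : ℕ → ℕ // Computable f})) := by
      intro f h hfh
      apply Subtype.ext
      funext n
      have := congrFun (congrArg Subtype.val hfh) n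
      exact toNat_inj' this
    exact hinj.countable
  obtain ⟨i, hi⟩ := nonempty_interior_of_iUnion_of_closed (X := C) (f := fun i : C => ({i} : Set C))
    (fun i => isClosed_singleton) (by
      apply Set.eq_univ_of_forall
      intro i
      exact Set.mem_iUnion.2 ⟨i, rfl⟩)
  have hopen : IsOpen ({i} : Set C) := by
    obtain ⟨j, hj⟩ := hi
    have hji : j ∈ ({i} : Set C) := interior_subset hj
    rw [Set.mem_singleton_iff] at hji
    subst hji
    have : ({j} : Set C) = interior {j} := by
      apply Set.Subset.antisymm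
      · intro k hk
        rw [Set.mem_singleton_iff.1 hk]
        exact hj
      · exact interior_subset
    rw [this]
    exact isOpen_interior
  obtain ⟨U, hU, hUi⟩ := isOpen_induced_iff.1 hopen
  have hiU : i.1 ∈ U := by
    have : i ∈ Subtype.val ⁻¹' U := by rw [hUi]; rfl
    exact this
  obtain ⟨I, u, hu, hsub⟩ := isOpen_pi_iff.1 hU i.1 hiU
  refine ⟨i.1, i.2.1, i.2.2, max (I.sup id + 1) σ.length, ?_⟩
  intro h hh hres
  have h1 : res h (I.sup id + 1) = res i.1 (I.sup id + 1) := res_mono (le_max_left _ _) hres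
  have h2 : res h σ.length = res i.1 σ.length := res_mono (le_max_right _ _) hres
  have hhC : h ∈ C := ⟨hh, by rw [h2]; exact i.2.2⟩
  have hhU : h ∈ U := by
    apply hsub
    intro a ha
    have hle : a ≤ I.sup id := Finset.le_sup (f := id) ha
    rw [res_inj h1 a (by omega)]
    exact (hu a ha).2
  have : (⟨h, hhC⟩ : C) ∈ Subtype.val ⁻¹' U := hhU
  rw [hUi] at this
  exact congrArg Subtype.val (Set.mem_singleton_iff.1 this)

end

end Pool.Agent.PAC
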