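import Pool.Agent.PAC.Drive

/-!
# The Σ₃ condition and gaps in the tree
-/

namespace Pool.Agent.PAC

open Nat.Partrec (Code)
open Filter

theorem ev_sound {t e n v : ℕ} (h : ev t e n = some v) :
    v ∈ Code.eval (Denumerable.ofNat Code e) n :=
  Nat.Partrec.Code.evaln_sound h

theorem ev_complete {e n v : ℕ} (h : v ∈ Code.eval (Denumerable.ofNat Code e) n) :
    ∀ᶠ t in atTop, ev t e n = some v := by
  obtain ⟨k, hk⟩ := Nat.Partrec.Code.evaln_complete.1 h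
  filter_upwards [eventually_ge_atTop k] with t ht
  exact Nat.Partrec.Code.evaln_mono ht hk

/-- `e` is a code of the total function `f` -/
def IsCode (e : ℕ) (f : ℕ → ℕ) : Prop := ∀ n, f n ∈ Code.eval (Denumerable.ofNat Code e) n

theorem exists_isCode {f : ℕ → ℕ} (hf : Computable f) : ∃ e, IsCode e f := by
  have h1 : Nat.Partrec (f : ℕ →. ℕ) := Partrec.nat_iff.1 hf
  obtain ⟨c, hc⟩ := Nat.Partrec.Code.exists_code.1 h1
  refine ⟨Encodable.encode c, fun n => ?_⟩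
  rw [Denumerable.ofNat_encode, hc]
  simp

theorem IsCode.ev_eq {e : ℕ} {f : ℕ → ℕ} (h : IsCode e f) {t n : ℕ} (hok : ok t e n) :
    ev t e n = some (f n) := by
  unfold ok at hok
  obtain ⟨v, hv⟩ := Option.isSome_iff_exists.1 hok
  rw [hv, Part.mem_unique (ev_sound hv) (h n)]

theorem cnt_eq {t x b p q : ℕ} {tt : ℕ → ℕ} (hx : IsCode x tt)
    (hok : ∀ k < q, ok t x (Nat.pair b k)) :
    cnt t x b p q = {k | p < k ∧ k < q ∧ tt (Nat.pair b k) = 1}.ncard := by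
  have hset : {k | p < k ∧ k < q ∧ tt (Nat.pair b k) = 1} =
      ↑((Finset.range q).filter (fun k => p < k ∧ ev t x (Nat.pair b k) = some 1)) := by
    ext k
    rw [Finset.coe_filter]
    constructor
    · rintro ⟨h1, h2, h3⟩
      exact ⟨Finset.mem_range.2 h2, h1, by rw [hx.ev_eq (hok k h2), h3]⟩
    · rintro ⟨h1, h2, h3⟩
      have h1 := Finset.mem_range.1 h1
      refine ⟨h2, h1, ?_⟩
      rw [hx.ev_eq (hok k h1)] at h3
      exact Option.some.inj h3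
  rw [hset, Set.ncard_coe_finset]
  rfl

section
variable {x : ℕ} {tt : ℕ → ℕ} {m r n0 : ℕ} {p q : ℕ → ℕ}

theorem gapMat_complete (hx : IsCode x tt) (hp : IsP p) (hq : IsP q)
    (hr : IsCode r (fun n => Nat.pair (p n) (q n))) {N : ℕ} (hN : n0 ≤ N)
    (hG : GapT (fun n k => tt (Nat.pair n k) = 1) m n0 p q) (b : ℕ) :
    ∀ᶠ t in atTop, GapMat x m r N b t ∧ getP t r b = p b ∧ getQ t r b = q b := by
  obtain ⟨n1, h1, h2, h3⟩ := hG.left b
  obtain ⟨n2, h4, h5, h6⟩ := hG.right b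
  have hevr : ∀ n, ∀ᶠ t in atTop, ev t r n = some (Nat.pair (p n) (q n)) := fun n =>
    ev_complete (hr n)
  have hevx : ∀ n, ∀ᶠ t in atTop, ev t x n = some (tt n) := fun n => ev_complete (hx n)
  have hall : ∀ᶠ t in atTop, ∀ k ∈ Finset.range (q b), ev t x (Nat.pair b k) =
      some (tt (Nat.pair b k)) :=
    (Filter.eventually_all_finset _).2 fun k _ => hevx _
  filter_upwards [hevr b, hevr (b + 1), hall, eventually_gt_atTop n1, eventually_gt_atTop n2,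
    hevr n1, hevr (n1 + 1), hevr n2, hevr (n2 + 1), hevx (Nat.pair (n1 + 1) (2 * p n1)),
    hevx (Nat.pair (n2 + 1) (2 * q n2 + 1))] with t e1 e2 e3 e4 e5 e6 e7 e8 e9 e10 e11
  have hPP : ∀ n, ev t r n = some (Nat.pair (p n) (q n)) → getP t r n = p n := by
    intro n h
    unfold getP
    rw [h]; simp
  have hQQ : ∀ n, ev t r n = some (Nat.pair (p n) (q n)) → getQ t r n = q n := by
    intro n h
    unfold getQ
    rw [h]; simp
  have hok : ∀ n, ev t r n = some (Nat.pair (p n) (q n)) → ok t r n := by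
    intro n h
    unfold ok
    rw [h]; rfl
  refine ⟨?_, hPP _ e1, hQQ _ e1⟩
  refine ⟨⟨hok _ e1, hok _ e2⟩, ?_, ?_, ?_, ?_, ?_, ?_⟩
  · rintro rfl
    rw [hPP _ e1, hQQ _ e1]
    exact ⟨hp.1, hq.1⟩
  · rw [hPP _ e1, hQQ _ e1, hPP _ e2, hQQ _ e2]
    exact ⟨hp.2 b, hq.2 b⟩
  · rw [hPP _ e1, hQQ _ e1]
    exact hG.le b
  · intro hb
    rw [hPP _ e1, hQQ _ e1]
    have h7 : ∀ k < q b, ok t x (Nat.pair b k) := by
      intro k hk
      unfold ok
      rw [e3 k (Finset.mem_range.2 hk)]; rfl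
    refine ⟨h7, ?_⟩
    rw [cnt_eq hx h7]
    exact hG.cnt b (hN.trans hb)
  · refine ⟨n1, e4, h1, ⟨hok _ e6, hok _ e7⟩, ?_, ?_⟩
    · rw [hPP _ e6, hPP _ e7]; exact h2
    · rw [hPP _ e6, e10, h3]
  · refine ⟨n2, e5, h4, ⟨hok _ e8, hok _ e9⟩, ?_, ?_⟩
    · rw [hQQ _ e8, hQQ _ e9]; exact h5
    · rw [hQQ _ e8, e11, h6]

theorem gapMat_sound (hx : IsCode x tt) (h : ∀ b, ∃ t, GapMat x m r n0 b t) :
    ∃ p q : ℕ → ℕ, IsP p ∧ IsP q ∧ GapT (fun n k => tt (Nat.pair n k) = 1) m n0 p q ∧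
      ∀ t b, ok t r b → getP t r b = p b ∧ getQ t r b = q b := by
  choose T hT using h
  have huniq : ∀ t b, ok t r b → getP t r b = getP (T b) r b ∧ getQ t r b = getQ (T b) r b := by
    intro t b hok
    obtain ⟨v, hv⟩ := Option.isSome_iff_exists.1 hok
    obtain ⟨v', hv'⟩ := Option.isSome_iff_exists.1 (hT b).1.1
    have := Part.mem_unique (ev_sound hv) (ev_sound hv')
    unfold getP getQ
    rw [hv, hv', this]
    exact ⟨rfl, rfl⟩
  refine ⟨fun b => getP (T b) r b, fun b => getQ (T b) r b, ⟨?_, ?_⟩, ⟨?_, ?_⟩, ⟨?_, ?_, ?_, ?_⟩, huniq⟩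
  · exact ((hT 0).2.1 rfl).1
  · intro n
    have h1 := (hT n).2.2.1.1
    rw [(huniq _ _ (hT n).1.2).1] at h1
    exact h1
  · exact ((hT 0).2.1 rfl).2
  · intro n
    have h1 := (hT n).2.2.1.2
    rw [(huniq _ _ (hT n).1.2).2] at h1
    exact h1
  · intro n
    exact (hT n).2.2.2.1
  · intro b
    obtain ⟨n, h1, h2, ⟨h3, h4⟩, h5, h6⟩ := (hT b).2.2.2.2.2.1
    rw [(huniq _ _ h3).1, (huniq _ _ h4).1] at h5
    rw [(huniq _ _ h3).1] at h6
    exact ⟨n, h2, h5, Part.mem_unique (hx _) (ev_sound h6)⟩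
  · intro b
    obtain ⟨n, h1, h2, ⟨h3, h4⟩, h5, h6⟩ := (hT b).2.2.2.2.2.2
    rw [(huniq _ _ h3).2, (huniq _ _ h4).2] at h5
    rw [(huniq _ _ h3).2] at h6
    exact ⟨n, h2, h5, Part.mem_unique (hx _) (ev_sound h6)⟩
  · intro n hn
    obtain ⟨h1, h2⟩ := (hT n).2.2.2.2.1 hn
    rw [cnt_eq hx h1] at h2
    exact h2

end

theorem Rep.ne_of_gapT {α : Type*} [LinearOrder α] {τ : ℕ → ℕ → Prop} {D : Set α}
    {φ : α → ℕ → ℕ} {m n0 : ℕ} (hR : Rep τ D φ) {p q : ℕ → ℕ} (hp : IsP p) (hq : IsP q)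
    (hG : GapT τ m n0 p q) {y : α} (hy : y ∈ D) : φ y ≠ p ∧ φ y ≠ q := by
  obtain ⟨N, hN⟩ := hR.iso y hy
  constructor
  · intro hEq
    obtain ⟨n, hbn, h1, h2⟩ := hG.left N
    have h3 := hp.lt_two_pow (n + 1)
    obtain ⟨z, hz, h4⟩ := hR.dense (n + 1) (2 * p n) (by omega) h2
    have h5 := (hR.isP z hz).2 n
    have h6 := (hR.isP z hz).eq_down hp hbn (by omega)
    have h7 := hN (φ z) (hR.isP z hz) (hR.mem z hz) (by rw [h6, hEq])
    rw [h7, hEq] at h4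
    omega
  · intro hEq
    obtain ⟨n, hbn, h1, h2⟩ := hG.right N
    have h3 := hq.lt_two_pow n
    obtain ⟨z, hz, h4⟩ := hR.dense (n + 1) (2 * q n + 1) (by rw [pow_succ]; omega) h2
    have h5 := (hR.isP z hz).2 n
    have h6 := (hR.isP z hz).eq_down hq hbn (by omega)
    have h7 := hN (φ z) (hR.isP z hz) (hR.mem z hz) (by rw [h6, hEq])
    rw [h7, hEq] at h4
    omega

/-- The main contradiction: no computable tree all of whose paths are computable represents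
the order `TD gg` through its isolated paths. -/
theorem main_contradiction {tt : ℕ → ℕ} (htt : Computable tt) {φ : Tri gg → ℕ → ℕ}
    (hR : Rep (fun n k => tt (Nat.pair n k) = 1) (TD gg) φ)
    (hcomp : ∀ p : ℕ → ℕ, IsP p → (∀ n, tt (Nat.pair n (p n)) = 1) → Computable p) : False := by
  obtain ⟨x, hx⟩ := exists_isCode htt
  by_cases h : ∃ a, ∀ b, ∃ t, Mat x a b t
  · obtain ⟨a, ha⟩ := h
    obtain ⟨p0, q0, hp0, hq0, hG0, hu0⟩ := gapMat_sound hx (fun b => (ha b).imp fun t h => h.1)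
    obtain ⟨p1, q1, hp1, hq1, hG1, hu1⟩ := gapMat_sound hx (fun b => (ha b).imp fun t h => h.2.1)
    obtain ⟨p2, q2, hp2, hq2, hG2, hu2⟩ := gapMat_sound hx (fun b => (ha b).imp fun t h => h.2.2.1)
    have h01 : ∀ b, q0 b ≤ p1 b := by
      intro b
      obtain ⟨t, ht⟩ := ha b
      have h1 := ht.2.2.2.1
      rw [(hu0 t b ht.1.1.1).2, (hu1 t b ht.2.1.1.1).1] at h1
      exact h1
    have h12 : ∀ b, q1 b ≤ p2 b := by
      intro b
      obtain ⟨t, ht⟩ := ha b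
      have h1 := ht.2.2.2.2
      rw [(hu1 t b ht.2.1.1.1).2, (hu2 t b ht.2.2.1.1.1).1] at h1
      exact h1
    have g0 := hR.toOrder hp0 hq0 hG0
    have g1 := hR.toOrder hp1 hq1 hG1
    have g2 := hR.toOrder hp2 hq2 hG2
    have l0 := g0.label
    have l2 := g2.label
    have hA : (tk x 1 0 : Tri gg) ∈ {y | y ∈ TD gg ∧ ∃ n, φ y n < p1 n} := by
      have hmem : (tk x 1 0 : Tri gg) ∈ TD gg \ ({y | y ∈ TD gg ∧ ∃ n, φ y n < p0 n} ∪
          {y | y ∈ TD gg ∧ ∃ n, q0 n < φ y n}) := by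
        rw [l0]
        exact ⟨0, Nat.zero_le _, rfl⟩
      refine ⟨hmem.1, ?_⟩
      have hle : ∀ n, φ (tk x 1 0 : Tri gg) n ≤ p1 n := by
        intro n
        refine le_trans ?_ (h01 n)
        by_contra hcon
        exact hmem.2 (Or.inr ⟨hmem.1, n, not_le.1 hcon⟩)
      exact IsP.exists_lt hle (hR.ne_of_gapT hp1 hq1 hG1 hmem.1).1
    have hB : (tk (x + 1) 1 0 : Tri gg) ∈ {y | y ∈ TD gg ∧ ∃ n, q1 n < φ y n} := by
      have hmem : (tk (x + 1) 1 0 : Tri gg) ∈ TD gg \ ({y | y ∈ TD gg ∧ ∃ n, φ y n < p2 n} ∪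
          {y | y ∈ TD gg ∧ ∃ n, q2 n < φ y n}) := by
        rw [l2]
        exact ⟨0, Nat.zero_le _, rfl⟩
      refine ⟨hmem.1, ?_⟩
      have hle : ∀ n, q1 n ≤ φ (tk (x + 1) 1 0 : Tri gg) n := by
        intro n
        refine le_trans (h12 n) ?_
        by_contra hcon
        exact hmem.2 (Or.inl ⟨hmem.1, n, not_le.1 hcon⟩)
      exact IsP.exists_lt hle (hR.ne_of_gapT hp1 hq1 hG1 hmem.1).2.symm
    exact (g1.inf_fa hA hB) (finite_fa ha)
  · have hinf := infinite_fa h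
    obtain ⟨p0, q0, n0, hp0, hq0, hτp0, hτq0, hG0, -, -, hB0, -⟩ := hR.toTree (gap_label x)
    obtain ⟨p1, q1, n1, hp1, hq1, hτp1, hτq1, hG1, hA1, -, hB1, -⟩ :=
      hR.toTree (gap_zero x hinf (inf_not_fa x))
    obtain ⟨p2, q2, n2, hp2, hq2, hτp2, hτq2, hG2, hA2, -, -, -⟩ := hR.toTree (gap_label (x + 1))
    have hcode : ∀ p q : ℕ → ℕ, IsP p → IsP q → (∀ n, tt (Nat.pair n (p n)) = 1) →
        (∀ n, tt (Nat.pair n (q n)) = 1) → ∃ r, IsCode r (fun n => Nat.pair (p n) (q n)) := by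
      intro p q hp hq h1 h2
      exact exists_isCode (Primrec₂.natPair.to_comp.comp (hcomp p hp h1) (hcomp q hq h2))
    obtain ⟨r0, hr0⟩ := hcode p0 q0 hp0 hq0 hτp0 hτq0
    obtain ⟨r1, hr1⟩ := hcode p1 q1 hp1 hq1 hτp1 hτq1
    obtain ⟨r2, hr2⟩ := hcode p2 q2 hp2 hq2 hτp2 hτq2
    have h01 : ∀ b, q0 b ≤ p1 b := by
      intro b
      refine le_trans (hB0 (tk x 2 0) ⟨tk_mem2, Or.inr ⟨rfl, le_rfl⟩⟩ b)
        (hA1 (tk x 2 0) ⟨tk_mem2, Or.inr ⟨rfl, Or.inl le_rfl⟩⟩ b)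
    have h12 : ∀ b, q1 b ≤ p2 b := by
      intro b
      refine le_trans (hB1 (tk (x + 1) 0 0) ⟨tk_mem0, Or.inl (Nat.lt_succ_self x)⟩ b)
        (hA2 (tk (x + 1) 0 0) ⟨tk_mem0, Or.inr ⟨rfl, rfl⟩⟩ b)
    apply h
    refine ⟨Nat.pair r0 (Nat.pair r1 (Nat.pair r2 (max n0 (max n1 n2)))), fun b => ?_⟩
    have c0 := gapMat_complete hx hp0 hq0 hr0 (le_max_left n0 (max n1 n2)) hG0 b
    have c1 := gapMat_complete hx hp1 hq1 hr1
      ((le_max_left n1 n2).trans (le_max_right n0 (max n1 n2))) hG1 b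
    have c2 := gapMat_complete hx hp2 hq2 hr2
      ((le_max_right n1 n2).trans (le_max_right n0 (max n1 n2))) hG2 b
    obtain ⟨t, ⟨⟨a0, b0, d0⟩, ⟨a1, b1, d1⟩⟩, ⟨a2, b2, d2⟩⟩ := ((c0.and c1).and c2).exists
    refine ⟨t, ?_⟩
    unfold Mat
    simp only [Nat.unpair_pair]
    refine ⟨a0, a1, a2, ?_, ?_⟩
    · rw [d0, b1]; exact h01 b
    · rw [d1, b2]; exact h12 b

end Pool.Agent.PAC
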