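import Pool.Agent.PAC.Tree

/-!
# The computable matrix
-/

namespace Pool.Agent.PAC

open Primrec

section general
variable {α : Type*} [Primcodable α]

theorem ball {R : α → ℕ → Prop} {f : α → ℕ} (hR : PrimrecPred fun v : α × ℕ => R v.1 v.2)
    (hf : Primrec f) : PrimrecPred fun a => ∀ k < f a, R a k := by
  have hR' : PrimrecRel (fun (k : ℕ) (a : α) => R a k) := by
    have := hR.comp (Primrec.pair (Primrec.snd (α := ℕ) (β := α)) Primrec.fst)
    exact this
  exact (hR'.forall_mem_list.comp (list_range.comp hf) Primrec.id).of_eq (by simp)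

theorem bex {R : α → ℕ → Prop} {f : α → ℕ} (hR : PrimrecPred fun v : α × ℕ => R v.1 v.2)
    (hf : Primrec f) : PrimrecPred fun a => ∃ k < f a, R a k := by
  have hR' : PrimrecRel (fun (k : ℕ) (a : α) => R a k) := by
    have := hR.comp (Primrec.pair (Primrec.snd (α := ℕ) (β := α)) Primrec.fst)
    exact this
  exact (hR'.exists_mem_list.comp (list_range.comp hf) Primrec.id).of_eq (by simp)

theorem imp_prim {p q : α → Prop} (hp : PrimrecPred p) (hq : PrimrecPred q) :
    PrimrecPred fun a => p a → q a := by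
  classical
  exact (hp.not.or hq).of_eq fun a => by tauto

end general

/-- time bounded universal machine -/
def ev (t e n : ℕ) : Option ℕ :=
  Nat.Partrec.Code.evaln t (Denumerable.ofNat Nat.Partrec.Code e) n

/-- convergence -/
def ok (t r n : ℕ) : Prop := (ev t r n).isSome = true

/-- first component of the output -/
def getP (t r n : ℕ) : ℕ := ((ev t r n).getD 0).unpair.1

/-- second component of the output -/
def getQ (t r n : ℕ) : ℕ := ((ev t r n).getD 0).unpair.2

/-- number of nodes strictly between `p` and `q` at level `b` -/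
def cnt (t x b p q : ℕ) : ℕ :=
  ((List.range q).filter (fun k => decide (p < k ∧ ev t x (Nat.pair b k) = some 1))).length

/-- the matrix for one gap -/
def GapMat (x m r n0 b t : ℕ) : Prop :=
  (ok t r b ∧ ok t r (b + 1)) ∧
  (b = 0 → getP t r b = 0 ∧ getQ t r b = 0) ∧
  (getP t r (b + 1) / 2 = getP t r b ∧ getQ t r (b + 1) / 2 = getQ t r b) ∧
  getP t r b ≤ getQ t r b ∧
  (n0 ≤ b → (∀ k < getQ t r b, ok t x (Nat.pair b k)) ∧
    cnt t x b (getP t r b) (getQ t r b) = m) ∧
  (∃ n < t, b ≤ n ∧ (ok t r n ∧ ok t r (n + 1)) ∧ getP t r (n + 1) = 2 * getP t r n + 1 ∧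
    ev t x (Nat.pair (n + 1) (2 * getP t r n)) = some 1) ∧
  (∃ n < t, b ≤ n ∧ (ok t r n ∧ ok t r (n + 1)) ∧ getQ t r (n + 1) = 2 * getQ t r n ∧
    ev t x (Nat.pair (n + 1) (2 * getQ t r n + 1)) = some 1)

/-- the matrix -/
def Mat (x a b t : ℕ) : Prop :=
  GapMat x (x + 1) a.unpair.1 a.unpair.2.unpair.2.unpair.2 b t ∧
  GapMat x 0 a.unpair.2.unpair.1 a.unpair.2.unpair.2.unpair.2 b t ∧
  GapMat x (x + 2) a.unpair.2.unpair.2.unpair.1 a.unpair.2.unpair.2.unpair.2 b t ∧
  getQ t a.unpair.1 b ≤ getP t a.unpair.2.unpair.1 b ∧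
  getQ t a.unpair.2.unpair.1 b ≤ getP t a.unpair.2.unpair.2.unpair.1 b

/-- `k` levels verified by time `w` -/
def Ver (x a k w : ℕ) : Prop := ∀ b < k, ∃ t < w, Mat x a b t

/-- the event `(a, k)` happens at time `w` -/
def Event (x a k w : ℕ) : Prop := Ver x a k w ∧ ∀ w' < w, ¬ Ver x a k w'

open Classical in
/-- basic function -/
noncomputable def G0 (x u : ℕ) : ℕ :=
  if Event x u.unpair.1 u.unpair.2.unpair.1 u.unpair.2.unpair.2 then u.unpair.1 else u

/-- the function driving the construction -/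
noncomputable def gg (x s : ℕ) : ℕ := G0 x (s / 2)

section prim
variable {α : Type*} [Primcodable α]

theorem ev_prim {t e n : α → ℕ} (ht : Primrec t) (he : Primrec e) (hn : Primrec n) :
    Primrec fun a => ev (t a) (e a) (n a) :=
  Nat.Partrec.Code.primrec_evaln.comp ((ht.pair ((Primrec.ofNat _).comp he)).pair hn)

theorem ok_prim {t e n : α → ℕ} (ht : Primrec t) (he : Primrec e) (hn : Primrec n) :
    PrimrecPred fun a => ok (t a) (e a) (n a) :=
  Primrec.eq.comp (option_isSome.comp (ev_prim ht he hn)) (Primrec.const true)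

theorem getD_prim {t e n : α → ℕ} (ht : Primrec t) (he : Primrec e) (hn : Primrec n) :
    Primrec fun a => (ev (t a) (e a) (n a)).getD 0 :=
  option_getD.comp (ev_prim ht he hn) (Primrec.const 0)

theorem getP_prim {t e n : α → ℕ} (ht : Primrec t) (he : Primrec e) (hn : Primrec n) :
    Primrec fun a => getP (t a) (e a) (n a) :=
  Primrec.fst.comp (Primrec.unpair.comp (getD_prim ht he hn))

theorem getQ_prim {t e n : α → ℕ} (ht : Primrec t) (he : Primrec e) (hn : Primrec n) :
    Primrec fun a => getQ (t a) (e a) (n a) :=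
  Primrec.snd.comp (Primrec.unpair.comp (getD_prim ht he hn))

theorem cnt_prim {t x b p q : α → ℕ} (ht : Primrec t) (hx : Primrec x) (hb : Primrec b)
    (hp : Primrec p) (hq : Primrec q) : Primrec fun a => cnt (t a) (x a) (b a) (p a) (q a) := by
  have hR : PrimrecRel (fun (k : ℕ) (a : α) => p a < k ∧ ev (t a) (x a) (Nat.pair (b a) k) = some 1) := by
    have h1 : PrimrecPred (fun v : ℕ × α => p v.2 < v.1) :=
      Primrec.nat_lt.comp (hp.comp Primrec.snd) Primrec.fst
    have h2 : PrimrecPred (fun v : ℕ × α => ev (t v.2) (x v.2) (Nat.pair (b v.2) v.1) = some 1) :=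
      Primrec.eq.comp (ev_prim (ht.comp Primrec.snd) (hx.comp Primrec.snd)
        (Primrec₂.natPair.comp (hb.comp Primrec.snd) Primrec.fst)) (Primrec.const _)
    exact h1.and h2
  have := hR.listFilter.comp (list_range.comp hq) Primrec.id
  exact list_length.comp this

theorem gapMat_prim {x m r n0 b t : α → ℕ} (hx : Primrec x) (hm : Primrec m) (hr : Primrec r)
    (hn0 : Primrec n0) (hb : Primrec b) (ht : Primrec t) :
    PrimrecPred fun a => GapMat (x a) (m a) (r a) (n0 a) (b a) (t a) := by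
  have hb1 : Primrec fun a => b a + 1 := Primrec.succ.comp hb
  have hP := getP_prim ht hr hb
  have hQ := getQ_prim ht hr hb
  have hP1 := getP_prim ht hr hb1
  have hQ1 := getQ_prim ht hr hb1
  refine PrimrecPred.and ((ok_prim ht hr hb).and (ok_prim ht hr hb1)) ?_
  refine PrimrecPred.and (imp_prim (Primrec.eq.comp hb (Primrec.const 0))
    ((Primrec.eq.comp hP (Primrec.const 0)).and (Primrec.eq.comp hQ (Primrec.const 0)))) ?_
  refine PrimrecPred.and ((Primrec.eq.comp (nat_div.comp hP1 (Primrec.const 2)) hP).and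
    (Primrec.eq.comp (nat_div.comp hQ1 (Primrec.const 2)) hQ)) ?_
  refine PrimrecPred.and (Primrec.nat_le.comp hP hQ) ?_
  refine PrimrecPred.and (imp_prim (Primrec.nat_le.comp hn0 hb) (PrimrecPred.and ?_
    (Primrec.eq.comp (cnt_prim ht hx hb hP hQ) hm))) ?_
  · exact ball (R := fun a k => ok (t a) (x a) (Nat.pair (b a) k))
      (ok_prim (ht.comp Primrec.fst) (hx.comp Primrec.fst)
        (Primrec₂.natPair.comp (hb.comp Primrec.fst) Primrec.snd)) hQ
  have hn : Primrec (fun v : α × ℕ => v.2) := Primrec.snd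
  have hn1 : Primrec (fun v : α × ℕ => v.2 + 1) := Primrec.succ.comp Primrec.snd
  have ht' : Primrec (fun v : α × ℕ => t v.1) := ht.comp Primrec.fst
  have hr' : Primrec (fun v : α × ℕ => r v.1) := hr.comp Primrec.fst
  have hx' : Primrec (fun v : α × ℕ => x v.1) := hx.comp Primrec.fst
  have hb' : Primrec (fun v : α × ℕ => b v.1) := hb.comp Primrec.fst
  refine PrimrecPred.and ?_ ?_
  · refine bex (R := fun a n => b a ≤ n ∧ (ok (t a) (r a) n ∧ ok (t a) (r a) (n + 1)) ∧
      getP (t a) (r a) (n + 1) = 2 * getP (t a) (r a) n + 1 ∧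
      ev (t a) (x a) (Nat.pair (n + 1) (2 * getP (t a) (r a) n)) = some 1) ?_ ht
    have h2 : Primrec (fun v : α × ℕ => 2 * getP (t v.1) (r v.1) v.2) :=
      nat_mul.comp (Primrec.const 2) (getP_prim ht' hr' hn)
    refine PrimrecPred.and (Primrec.nat_le.comp hb' hn) ?_
    refine PrimrecPred.and ((ok_prim ht' hr' hn).and (ok_prim ht' hr' hn1)) ?_
    refine PrimrecPred.and (Primrec.eq.comp (getP_prim ht' hr' hn1) (Primrec.succ.comp h2)) ?_
    exact Primrec.eq.comp (ev_prim ht' hx' (Primrec₂.natPair.comp hn1 h2)) (Primrec.const _)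
  · refine bex (R := fun a n => b a ≤ n ∧ (ok (t a) (r a) n ∧ ok (t a) (r a) (n + 1)) ∧
      getQ (t a) (r a) (n + 1) = 2 * getQ (t a) (r a) n ∧
      ev (t a) (x a) (Nat.pair (n + 1) (2 * getQ (t a) (r a) n + 1)) = some 1) ?_ ht
    have h2 : Primrec (fun v : α × ℕ => 2 * getQ (t v.1) (r v.1) v.2) :=
      nat_mul.comp (Primrec.const 2) (getQ_prim ht' hr' hn)
    refine PrimrecPred.and (Primrec.nat_le.comp hb' hn) ?_
    refine PrimrecPred.and ((ok_prim ht' hr' hn).and (ok_prim ht' hr' hn1)) ?_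
    refine PrimrecPred.and (Primrec.eq.comp (getQ_prim ht' hr' hn1) h2) ?_
    exact Primrec.eq.comp (ev_prim ht' hx' (Primrec₂.natPair.comp hn1 (Primrec.succ.comp h2)))
      (Primrec.const _)

theorem mat_prim {x a b t : α → ℕ} (hx : Primrec x) (ha : Primrec a)
    (hb : Primrec b) (ht : Primrec t) :
    PrimrecPred fun v => Mat (x v) (a v) (b v) (t v) := by
  have u1 : Primrec (fun v => (a v).unpair.1) := Primrec.fst.comp (Primrec.unpair.comp ha)
  have u2 : Primrec (fun v => (a v).unpair.2) := Primrec.snd.comp (Primrec.unpair.comp ha)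
  have u21 : Primrec (fun v => (a v).unpair.2.unpair.1) :=
    Primrec.fst.comp (Primrec.unpair.comp u2)
  have u22 : Primrec (fun v => (a v).unpair.2.unpair.2) :=
    Primrec.snd.comp (Primrec.unpair.comp u2)
  have u221 : Primrec (fun v => (a v).unpair.2.unpair.2.unpair.1) :=
    Primrec.fst.comp (Primrec.unpair.comp u22)
  have u222 : Primrec (fun v => (a v).unpair.2.unpair.2.unpair.2) :=
    Primrec.snd.comp (Primrec.unpair.comp u22)
  refine PrimrecPred.and (gapMat_prim hx (Primrec.succ.comp hx) u1 u222 hb ht) ?_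
  refine PrimrecPred.and (gapMat_prim hx (Primrec.const 0) u21 u222 hb ht) ?_
  refine PrimrecPred.and (gapMat_prim hx (Primrec.succ.comp (Primrec.succ.comp hx)) u221 u222 hb ht) ?_
  exact PrimrecPred.and (Primrec.nat_le.comp (getQ_prim ht u1 hb) (getP_prim ht u21 hb))
    (Primrec.nat_le.comp (getQ_prim ht u21 hb) (getP_prim ht u221 hb))

theorem ver_prim {x a k w : α → ℕ} (hx : Primrec x) (ha : Primrec a)
    (hk : Primrec k) (hw : Primrec w) :
    PrimrecPred fun v => Ver (x v) (a v) (k v) (w v) := by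
  refine ball (R := fun v b => ∃ t < w v, Mat (x v) (a v) b t) ?_ hk
  refine bex (R := fun (v : α × ℕ) t => Mat (x v.1) (a v.1) v.2 t) ?_ (hw.comp Primrec.fst)
  exact mat_prim (hx.comp (Primrec.fst.comp Primrec.fst)) (ha.comp (Primrec.fst.comp Primrec.fst))
    (Primrec.snd.comp Primrec.fst) Primrec.snd

theorem event_prim {x a k w : α → ℕ} (hx : Primrec x) (ha : Primrec a)
    (hk : Primrec k) (hw : Primrec w) :
    PrimrecPred fun v => Event (x v) (a v) (k v) (w v) := by
  refine PrimrecPred.and (ver_prim hx ha hk hw) ?_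
  refine ball (R := fun v w' => ¬ Ver (x v) (a v) (k v) w') ?_ hw
  exact (ver_prim (hx.comp Primrec.fst) (ha.comp Primrec.fst) (hk.comp Primrec.fst)
    Primrec.snd).not

theorem G0_prim {x u : α → ℕ} (hx : Primrec x) (hu : Primrec u) :
    Primrec fun v => G0 (x v) (u v) := by
  classical
  have u1 : Primrec (fun v => (u v).unpair.1) := Primrec.fst.comp (Primrec.unpair.comp hu)
  have u2 : Primrec (fun v => (u v).unpair.2) := Primrec.snd.comp (Primrec.unpair.comp hu)
  have u21 : Primrec (fun v => (u v).unpair.2.unpair.1) :=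
    Primrec.fst.comp (Primrec.unpair.comp u2)
  have u22 : Primrec (fun v => (u v).unpair.2.unpair.2) :=
    Primrec.snd.comp (Primrec.unpair.comp u2)
  exact Primrec.ite (event_prim hx u1 u21 u22) u1 hu

theorem gg_prim {x s : α → ℕ} (hx : Primrec x) (hs : Primrec s) :
    Primrec fun v => gg (x v) (s v) :=
  G0_prim hx (nat_div.comp hs (Primrec.const 2))

end prim

end Pool.Agent.PAC
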