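import Pool.Agent.PAC.TriGap

/-!
# `TD g` is scattered
-/

namespace Pool.Agent.PAC

variable {g : ℕ → ℕ → ℕ}

theorem fib_finite (x c s : ℕ) : {t | Fib g x c t s}.Finite ∨ {t | Fib g x c s t}.Finite := by
  rcases Nat.lt_or_ge c 2 with hc | hc
  · left
    refine (Set.finite_lt_nat s).subset ?_
    rintro t (⟨_, h⟩ | ⟨h, _⟩ | ⟨h, _⟩)
    · exact h
    · omega
    · omega
  · rcases eq_or_lt_of_le hc with hc | hc
    · right
      refine (Set.finite_lt_nat s).subset ?_
      rintro t (⟨h, _⟩ | ⟨_, h⟩ | ⟨h, _⟩)
      · omega
      · exact h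
      · omega
    · by_cases hs : Fa (g x) s
      · left
        refine (finite_left_of_fa hs).subset ?_
        rintro t (⟨h, _⟩ | ⟨h, _⟩ | ⟨_, h⟩)
        · omega
        · omega
        · exact h
      · right
        refine (finite_right_of_not_fa hs).subset ?_
        rintro t (⟨h, _⟩ | ⟨h, _⟩ | ⟨_, h⟩)
        · omega
        · omega
        · exact h

theorem scattered (e : ℚ → Tri g) (hD : ∀ q, e q ∈ TD g) (hlt : ∀ q r : ℚ, q < r → e q < e r) :
    False := by
  have hmono : ∀ q r : ℚ, q < r → 4 * (e q).1 + (e q).2.1 ≤ 4 * (e r).1 + (e r).2.1 := by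
    intro q r hqr
    have h1 := (hD q).1
    have h2 := (hD r).1
    have h3 := hlt q r hqr
    rw [tri_lt] at h3
    rcases h3 with h3 | ⟨h3, h4 | ⟨h4, _⟩⟩ <;> omega
  have key : ∀ n : ℕ, ∀ a b : ℚ, a < b →
      (4 * (e b).1 + (e b).2.1) - (4 * (e a).1 + (e a).2.1) = n → False := by
    intro n
    induction n using Nat.strong_induction_on with
    | _ n ih =>
      intro a b hab hn
      have hma : a < (a + b) / 2 := by linarith
      have hmb : (a + b) / 2 < b := by linarith
      have h1 := hmono _ _ hma
      have h2 := hmono _ _ hmb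
      rcases Nat.eq_zero_or_pos n with h0 | hpos
      · -- all of `[a, b]` lands in one fibre
        set x := (e ((a + b) / 2)).1 with hx
        set c := (e ((a + b) / 2)).2.1 with hc
        set s := (e ((a + b) / 2)).2.2 with hs
        have hconst : ∀ q, a < q → q < b → (e q).1 = x ∧ (e q).2.1 = c := by
          intro q hq1 hq2
          have h3 := hmono _ _ hq1
          have h4 := hmono _ _ hq2
          have h5 := (hD q).1
          have h6 := (hD ((a + b) / 2)).1
          constructor <;> omega
        have hinj : ∀ q r, a < q → q < b → a < r → r < b → (e q).2.2 = (e r).2.2 → q = r := by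
          intro q r hq1 hq2 hr1 hr2 hqr
          have hEq : e q = e r := by
            have h3 := hconst q hq1 hq2
            have h4 := hconst r hr1 hr2
            rw [tri_ext (e q), tri_ext (e r), h3.1, h3.2, h4.1, h4.2, hqr]
          by_contra hne
          rcases lt_or_gt_of_ne hne with h | h
          · exact absurd (hlt _ _ h) (by rw [hEq]; exact lt_irrefl _)
          · exact absurd (hlt _ _ h) (by rw [hEq]; exact lt_irrefl _)
        rcases fib_finite (g := g) x c s with hf | hf
        · have hinf : (Set.Ioo a ((a + b) / 2)).Infinite := Set.Ioo_infinite hma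
          have : ((fun q => (e q).2.2) '' Set.Ioo a ((a + b) / 2)).Infinite := by
            refine hinf.image ?_
            intro q hq r hr hqr
            exact hinj q r hq.1 (hq.2.trans hmb) hr.1 (hr.2.trans hmb) hqr
          refine this (hf.subset ?_)
          rintro _ ⟨q, hq, rfl⟩
          have h3 := hlt _ _ hq.2
          have h4 := hconst q hq.1 (hq.2.trans hmb)
          rw [tri_lt] at h3
          rcases h3 with h3 | ⟨h3, h5 | ⟨h5, h6⟩⟩
          · omega
          · omega
          · rw [h4.1, h4.2] at h6
            exact h6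
        · have hinf : (Set.Ioo ((a + b) / 2) b).Infinite := Set.Ioo_infinite hmb
          have : ((fun q => (e q).2.2) '' Set.Ioo ((a + b) / 2) b).Infinite := by
            refine hinf.image ?_
            intro q hq r hr hqr
            exact hinj q r (hma.trans hq.1) hq.2 (hma.trans hr.1) hr.2 hqr
          refine this (hf.subset ?_)
          rintro _ ⟨q, hq, rfl⟩
          have h3 := hlt _ _ hq.1
          have h4 := hconst q (hma.trans hq.1) hq.2
          rw [tri_lt] at h3
          rcases h3 with h3 | ⟨h3, h5 | ⟨h5, h6⟩⟩
          · omega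
          · omega
          · exact h6
      · by_cases h3 : (4 * (e ((a + b) / 2)).1 + (e ((a + b) / 2)).2.1) -
            (4 * (e a).1 + (e a).2.1) < n
        · exact ih _ h3 a _ hma rfl
        · refine ih _ ?_ _ b hmb rfl
          omega
  exact key _ 0 1 (by norm_num) rfl

end Pool.Agent.PAC
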