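import Pool.Agent.PAC.Comp
import Pool.Agent.PAC.Scattered

/-!
# Computability of the order and the limit behaviour of `gg`
-/

namespace Pool.Agent.PAC

open Primrec

section prim
variable {α : Type*} [Primcodable α]

theorem alive_prim {x s t : α → ℕ} (hx : Primrec x) (hs : Primrec s) (ht : Primrec t) :
    PrimrecPred fun v => Alive (gg (x v)) (s v) (t v) := by
  have h : PrimrecPred fun v => ∀ r < t v + 1, (s v < r → gg (x v) (s v) < gg (x v) r) := by
    refine ball (R := fun v r => (s v < r → gg (x v) (s v) < gg (x v) r)) ?_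
      (Primrec.succ.comp ht)
    have hx' : Primrec (fun v : α × ℕ => x v.1) := hx.comp Primrec.fst
    have hs' : Primrec (fun v : α × ℕ => s v.1) := hs.comp Primrec.fst
    have hr : Primrec (fun v : α × ℕ => v.2) := Primrec.snd
    exact imp_prim (Primrec.nat_lt.comp hs' hr) (Primrec.nat_lt.comp (gg_prim hx' hs') (gg_prim hx' hr))
  refine h.of_eq fun v => ?_
  constructor
  · intro H r h1 h2
    exact H r (by omega) h1
  · intro H r h1 h2
    exact H r h2 (by omega)

theorem sto_prim {x s t : α → ℕ} (hx : Primrec x) (hs : Primrec s) (ht : Primrec t) :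
    PrimrecPred fun v => Sto (gg (x v)) (s v) (t v) :=
  ((Primrec.nat_lt.comp hs ht).and (alive_prim hx hs ht)).or
    ((Primrec.nat_lt.comp ht hs).and (alive_prim hx ht hs).not)

theorem fib_prim {x c s t : α → ℕ} (hx : Primrec x) (hc : Primrec c) (hs : Primrec s)
    (ht : Primrec t) : PrimrecPred fun v => Fib gg (x v) (c v) (s v) (t v) := by
  refine PrimrecPred.or ((Primrec.nat_le.comp hc (Primrec.const 1)).and (Primrec.nat_lt.comp hs ht))
    (PrimrecPred.or ((Primrec.eq.comp hc (Primrec.const 2)).and (Primrec.nat_lt.comp ht hs)) ?_)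
  exact (Primrec.nat_le.comp (Primrec.const 3) hc).and (sto_prim hx hs ht)

/-- decoding of numbers into triples -/
def dec (n : ℕ) : ℕ × ℕ × ℕ := (n.unpair.1, n.unpair.2.unpair.1, n.unpair.2.unpair.2)

/-- coding of triples -/
def enc (p : ℕ × ℕ × ℕ) : ℕ := Nat.pair p.1 (Nat.pair p.2.1 p.2.2)

theorem dec_enc (p : ℕ × ℕ × ℕ) : dec (enc p) = p := by
  simp [dec, enc]

theorem enc_dec (n : ℕ) : enc (dec n) = n := by
  simp [dec, enc]

theorem domain_prim : PrimrecPred fun n : ℕ => (dec n).2.1 ≤ 3 ∧ ((dec n).2.1 = 1 → (dec n).2.2 ≤ (dec n).1) := by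
  have u1 : Primrec (fun v : ℕ => v.unpair.1) := Primrec.fst.comp Primrec.unpair
  have u2 : Primrec (fun v : ℕ => v.unpair.2) := Primrec.snd.comp Primrec.unpair
  have u21 : Primrec (fun v : ℕ => v.unpair.2.unpair.1) :=
    Primrec.fst.comp (Primrec.unpair.comp u2)
  have u22 : Primrec (fun v : ℕ => v.unpair.2.unpair.2) :=
    Primrec.snd.comp (Primrec.unpair.comp u2)
  exact (Primrec.nat_le.comp u21 (Primrec.const 3)).and
    (imp_prim (Primrec.eq.comp u21 (Primrec.const 1)) (Primrec.nat_le.comp u22 u1))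

theorem lr_prim : PrimrecPred fun v : ℕ × ℕ => LR gg (dec v.1) (dec v.2) := by
  have u1 : Primrec (fun v : ℕ × ℕ => v.1.unpair.1) :=
    Primrec.fst.comp (Primrec.unpair.comp Primrec.fst)
  have u2 : Primrec (fun v : ℕ × ℕ => v.1.unpair.2) :=
    Primrec.snd.comp (Primrec.unpair.comp Primrec.fst)
  have u21 : Primrec (fun v : ℕ × ℕ => v.1.unpair.2.unpair.1) :=
    Primrec.fst.comp (Primrec.unpair.comp u2)
  have u22 : Primrec (fun v : ℕ × ℕ => v.1.unpair.2.unpair.2) :=
    Primrec.snd.comp (Primrec.unpair.comp u2)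
  have w1 : Primrec (fun v : ℕ × ℕ => v.2.unpair.1) :=
    Primrec.fst.comp (Primrec.unpair.comp Primrec.snd)
  have w2 : Primrec (fun v : ℕ × ℕ => v.2.unpair.2) :=
    Primrec.snd.comp (Primrec.unpair.comp Primrec.snd)
  have w21 : Primrec (fun v : ℕ × ℕ => v.2.unpair.2.unpair.1) :=
    Primrec.fst.comp (Primrec.unpair.comp w2)
  have w22 : Primrec (fun v : ℕ × ℕ => v.2.unpair.2.unpair.2) :=
    Primrec.snd.comp (Primrec.unpair.comp w2)
  refine PrimrecPred.or (Primrec.nat_lt.comp u1 w1) ?_
  refine PrimrecPred.and (Primrec.eq.comp u1 w1) ?_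
  refine PrimrecPred.or (Primrec.nat_lt.comp u21 w21) ?_
  refine PrimrecPred.and (Primrec.eq.comp u21 w21) ?_
  exact fib_prim u1 u21 u22 w22

end prim

/-! ## limit behaviour -/

theorem Event.unique {x a k w w' : ℕ} (h : Event x a k w) (h' : Event x a k w') : w = w' := by
  rcases lt_trichotomy w w' with h1 | h1 | h1
  · exact absurd h.1 (h'.2 w h1)
  · exact h1
  · exact absurd h'.1 (h.2 w' h1)

/-- infinitely many elements die -/
theorem inf_not_fa (x : ℕ) : {s | ¬ Fa (gg x) s}.Infinite := by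
  refine Set.infinite_of_not_bddAbove ?_
  rintro ⟨N, hN⟩
  have : (2 * (N + 1)) ∈ {s | ¬ Fa (gg x) s} := by
    intro h
    have := h (2 * (N + 1) + 1) (by omega)
    have h1 : 2 * (N + 1) / 2 = N + 1 := by omega
    have h2 : (2 * (N + 1) + 1) / 2 = N + 1 := by omega
    unfold gg at this
    rw [h1, h2] at this
    exact lt_irrefl _ this
  have := hN this
  omega

theorem exists_event {x a : ℕ} (h : ∀ b, ∃ t, Mat x a b t) (k : ℕ) : ∃ w, Event x a k w := by
  classical
  have hv : ∃ w, Ver x a k w := by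
    induction k with
    | zero => exact ⟨0, fun b hb => absurd hb (Nat.not_lt_zero b)⟩
    | succ k ih =>
      obtain ⟨w, hw⟩ := ih
      obtain ⟨t, ht⟩ := h k
      refine ⟨max w (t + 1), fun b hb => ?_⟩
      rcases Nat.lt_succ_iff_lt_or_eq.1 hb with hb | rfl
      · obtain ⟨t', h1, h2⟩ := hw b hb
        exact ⟨t', lt_of_lt_of_le h1 (le_max_left _ _), h2⟩
      · exact ⟨t, lt_of_lt_of_le (Nat.lt_succ_self t) (le_max_right _ _), ht⟩
  exact ⟨Nat.find hv, Nat.find_spec hv, fun w' hw' => Nat.find_min hv hw'⟩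

/-- if the Σ₃ condition holds, then only finitely many elements are alive forever -/
theorem finite_fa {x a : ℕ} (h : ∀ b, ∃ t, Mat x a b t) : {s | Fa (gg x) s}.Finite := by
  classical
  by_contra hinf
  have hinf : {s | Fa (gg x) s}.Infinite := hinf
  -- `gg x` takes the value `a` infinitely often
  have hval : {s | gg x s = a}.Infinite := by
    refine Set.infinite_of_not_bddAbove ?_
    rintro ⟨N, hN⟩
    obtain ⟨w, hw⟩ := exists_event h (N + 1)
    have hmem : 2 * Nat.pair a (Nat.pair (N + 1) w) ∈ {s | gg x s = a} := by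
      show gg x (2 * Nat.pair a (Nat.pair (N + 1) w)) = a
      unfold gg G0
      rw [Nat.mul_div_cancel_left _ (by norm_num)]
      simp only [Nat.unpair_pair]
      rw [if_pos hw]
    have h1 := hN hmem
    have h2 : N + 1 ≤ Nat.pair (N + 1) w := Nat.left_le_pair _ _
    have h3 : Nat.pair (N + 1) w ≤ Nat.pair a (Nat.pair (N + 1) w) := Nat.right_le_pair _ _
    omega
  -- `gg x` is injective on the set of forever alive elements, hence unbounded there
  have hinj : Set.InjOn (gg x) {s | Fa (gg x) s} := by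
    intro s hs t ht hst
    by_contra hne
    rcases lt_or_gt_of_ne hne with h1 | h1
    · exact absurd (hs t h1) (by rw [hst]; exact lt_irrefl _)
    · exact absurd (ht s h1) (by rw [hst]; exact lt_irrefl _)
  have himg := hinf.image hinj
  obtain ⟨_, ⟨s, hs, rfl⟩, hgt⟩ := himg.exists_gt a
  obtain ⟨r, hr, hlt⟩ := hval.exists_gt s
  have := hs r hlt
  rw [show gg x r = a from hr] at this
  omega

/-- if the Σ₃ condition fails, then infinitely many elements are alive forever -/
theorem infinite_fa {x : ℕ} (h : ¬ ∃ a, ∀ b, ∃ t, Mat x a b t) : {s | Fa (gg x) s}.Infinite := by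
  classical
  push Not at h
  -- every lower level set is finite
  have hfin0 : ∀ K, {u | G0 x u ≤ K}.Finite := by
    intro K
    choose β hβ using h
    have hsub : {u | G0 x u ≤ K} ⊆ Set.Iic K ∪
        ⋃ a ∈ Finset.range (K + 1), ⋃ k ∈ Finset.range (β a + 1),
          {u | ∃ w, u = Nat.pair a (Nat.pair k w) ∧ Event x a k w} := by
      intro u hu
      by_cases hev : Event x u.unpair.1 u.unpair.2.unpair.1 u.unpair.2.unpair.2
      · right
        have hu' : G0 x u ≤ K := hu
        unfold G0 at hu'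
        rw [if_pos hev] at hu'
        simp only [Set.mem_iUnion]
        refine ⟨u.unpair.1, Finset.mem_range.2 (by omega), u.unpair.2.unpair.1, ?_, ?_⟩
        · rw [Finset.mem_range]
          by_contra hcon
          obtain ⟨t, _, ht⟩ := hev.1 (β u.unpair.1) (by omega)
          exact hβ _ t ht
        · exact ⟨u.unpair.2.unpair.2, by simp, hev⟩
      · left
        have hu' : G0 x u ≤ K := hu
        unfold G0 at hu'
        rw [if_neg hev] at hu'
        exact hu'
    refine Set.Finite.subset (Set.Finite.union (Set.finite_Iic K) ?_) hsub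
    refine Set.Finite.biUnion (Finset.finite_toSet _) fun a _ => ?_
    refine Set.Finite.biUnion (Finset.finite_toSet _) fun k _ => ?_
    refine Set.Subsingleton.finite ?_
    rintro u ⟨w, rfl, hw⟩ u' ⟨w', rfl, hw'⟩
    rw [hw.unique hw']
  have hfin : ∀ K, {s | gg x s ≤ K}.Finite := by
    intro K
    have hb := (hfin0 K).bddAbove
    obtain ⟨N, hN⟩ := hb
    refine (Set.finite_Iic (2 * N + 1)).subset fun s hs => ?_
    have : s / 2 ≤ N := hN hs
    show s ≤ 2 * N + 1
    omega
  refine Set.infinite_of_not_bddAbove ?_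
  rintro ⟨N, hN⟩
  -- minimal value on `[N+1, ∞)`
  have hne : ((gg x) '' Set.Ici (N + 1)).Nonempty := ⟨_, N + 1, Set.self_mem_Ici, rfl⟩
  obtain ⟨s0, hs0, hv⟩ := Nat.sInf_mem hne
  set v := sInf ((gg x) '' Set.Ici (N + 1)) with hvdef
  have hmin : ∀ r, N + 1 ≤ r → v ≤ gg x r := fun r hr => Nat.sInf_le ⟨r, hr, rfl⟩
  -- last index where it is attained
  have hf : ({s | gg x s ≤ v} ∩ Set.Ici (N + 1)).Finite := (hfin v).inter_of_left _
  obtain ⟨s, hs, hmax⟩ := Set.exists_max_image _ id hf ⟨s0, hv.le, hs0⟩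
  have hsN : N + 1 ≤ s := hs.2
  have hfa : Fa (gg x) s := by
    intro r hr
    have h1 : gg x s ≤ v := hs.1
    have h2 := hmin r (by omega)
    rcases eq_or_lt_of_le h2 with h3 | h3
    · exfalso
      have := hmax r ⟨h3.ge, show N + 1 ≤ r by omega⟩
      simp only [id] at this
      omega
    · omega
  have := hN hfa
  omega

end Pool.Agent.PAC
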