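import Pool.Agent.PAC.Baire

/-!
# Assembly
-/

namespace Pool.Agent.PAC

/-- the domain, as a set of natural numbers -/
def D0 : Set ℕ := {n | (dec n).2.1 ≤ 3 ∧ ((dec n).2.1 = 1 → (dec n).2.2 ≤ (dec n).1)}

/-- the strict order, as a relation on natural numbers -/
def R0 (n m : ℕ) : Prop := LR gg (dec n) (dec m)

theorem D0_comp : ComputablePred (fun n : ℕ => n ∈ D0) := domain_prim.computablePred

theorem R0_comp : ComputablePred (fun p : ℕ × ℕ => R0 p.1 p.2) := lr_prim.computablePred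

theorem R0_irrefl (n : ℕ) : ¬ R0 n n := lr_irrefl gg _

theorem R0_trans {n m k : ℕ} (h1 : R0 n m) (h2 : R0 m k) : R0 n k := lr_trans gg h1 h2

theorem R0_total {n m : ℕ} (h : n ≠ m) : R0 n m ∨ R0 m n := by
  apply lr_total
  intro hd
  exact h (by rw [← enc_dec n, ← enc_dec m, hd])

theorem D0_scattered : ¬ ∃ e : ℚ → ℕ, (∀ q, e q ∈ D0) ∧ ∀ q r : ℚ, q < r → R0 (e q) (e r) := by
  rintro ⟨e, h1, h2⟩
  exact scattered (g := gg) (fun q => (dec (e q) : Tri gg)) (fun q => h1 q) (fun q r h => h2 q r h)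

theorem enc_mem {y : ℕ × ℕ × ℕ} (hy : y.2.1 ≤ 3 ∧ (y.2.1 = 1 → y.2.2 ≤ y.1)) : enc y ∈ D0 := by
  show (dec (enc y)).2.1 ≤ 3 ∧ ((dec (enc y)).2.1 = 1 → (dec (enc y)).2.2 ≤ (dec (enc y)).1)
  rw [dec_enc]
  exact hy

theorem R0_enc (y z : ℕ × ℕ × ℕ) : R0 (enc y) (enc z) ↔ LR gg y z := by
  unfold R0
  rw [dec_enc, dec_enc]

theorem not_represented (T : Set (List Bool))
    (hT : ComputablePred (fun σ : List Bool => σ ∈ T))
    (hpre : ∀ σ τ : List Bool, σ ++ τ ∈ T → σ ∈ T)
    (hde : ∀ σ ∈ T, ∃ b : Bool, σ ++ [b] ∈ T)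
    (hpac : ∀ f : ℕ → Bool, (∀ n : ℕ, List.ofFn (fun i : Fin n => f i) ∈ T) → Computable f)
    (φ : ℕ → ℕ → Bool)
    (h1 : ∀ x ∈ D0,
          (∀ n : ℕ, List.ofFn (fun i : Fin n => φ x i) ∈ T) ∧
          ∃ σ : List Bool, List.ofFn (fun i : Fin σ.length => φ x i) = σ ∧
            ∀ h : ℕ → Bool, (∀ n : ℕ, List.ofFn (fun i : Fin n => h i) ∈ T) →
              List.ofFn (fun i : Fin σ.length => h i) = σ → h = φ x)
    (h2 : ∀ g : ℕ → Bool,
          ((∀ n : ℕ, List.ofFn (fun i : Fin n => g i) ∈ T) ∧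
           ∃ σ : List Bool, List.ofFn (fun i : Fin σ.length => g i) = σ ∧
             ∀ h : ℕ → Bool, (∀ n : ℕ, List.ofFn (fun i : Fin n => h i) ∈ T) →
               List.ofFn (fun i : Fin σ.length => h i) = σ → h = g) →
          ∃ x ∈ D0, φ x = g)
    (h3 : ∀ x ∈ D0, ∀ y ∈ D0,
          (R0 x y ↔ ∃ n : ℕ, (∀ i < n, φ x i = φ y i) ∧ φ x n = false ∧ φ y n = true)) :
    False := by
  classical
  obtain ⟨f, hf, hfT⟩ := ComputablePred.computable_iff.1 hT
  have hfT' : ∀ σ, σ ∈ T ↔ f σ = true := fun σ => by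
    have := congrFun hfT σ
    exact Iff.of_eq this
  set tt : ℕ → ℕ := fun v => (f (lst v.unpair.1 v.unpair.2)).toNat with htt
  have httT : ∀ n k, tt (Nat.pair n k) = 1 ↔ lst n k ∈ T := by
    intro n k
    rw [hfT']
    simp only [htt, Nat.unpair_pair]
    cases f (lst n k) <;> simp
  have httc : Computable tt := by
    refine (Primrec.dom_bool Bool.toNat).to_comp.comp (hf.comp ?_)
    exact lst_primrec.to_comp.comp (Computable.fst.comp Computable.unpair)
      (Computable.snd.comp Computable.unpair)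
  have henc : ∀ y ∈ TD gg, enc y ∈ D0 := fun y hy => enc_mem hy
  have hR : Rep (fun n k => tt (Nat.pair n k) = 1) (TD gg) (fun y => num (φ (enc y))) := by
    refine ⟨fun y _ => num_isP _, ?_, ?_, ?_, ?_⟩
    · intro y hy n
      show tt (Nat.pair n (num (φ (enc y)) n)) = 1
      rw [httT, lst_num]
      exact (h1 _ (henc y hy)).1 n
    · intro n k hk hτ
      have hτ' : lst n k ∈ T := (httT n k).1 hτ
      obtain ⟨p, hp1, hp2, N, hp3⟩ := exists_isolated hpre hde hpac hτ'
      obtain ⟨x, hx, hpx⟩ := h2 p ⟨hp1, res p N, by rw [res_length]; rfl, by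
        intro h hh hres
        rw [res_length] at hres
        exact hp3 h hh hres⟩
      refine ⟨dec x, hx, ?_⟩
      show num (φ (enc (dec x))) n = k
      rw [enc_dec, hpx]
      apply lst_inj ((num_isP p).lt_two_pow n) hk
      rw [lst_num]
      rw [lst_length] at hp2
      exact hp2
    · intro y hy
      obtain ⟨σ, hσ1, hσ2⟩ := (h1 _ (henc y hy)).2
      refine ⟨σ.length, ?_⟩
      intro p hp hpτ hEq
      have hpath : ∀ n : ℕ, List.ofFn (fun i : Fin n => dig p i) ∈ T := by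
        intro n
        rw [← lst_num, num_dig hp]
        exact (httT _ _).1 (hpτ n)
      have := hσ2 (dig p) hpath (by
        rw [← lst_num, num_dig hp, hEq, lst_num]
        exact hσ1)
      show p = num (φ (enc y))
      rw [← this, num_dig hp]
    · intro y hy z hz
      show y < z ↔ ∃ n, num (φ (enc y)) n < num (φ (enc z)) n
      rw [← lex_iff, ← h3 _ (henc y hy) _ (henc z hz)]
      exact (R0_enc y z).symm
  refine main_contradiction httc hR ?_
  intro p hp hpτ
  apply computable_of_dig hp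
  apply hpac
  intro n
  rw [← lst_num, num_dig hp]
  exact (httT _ _).1 (hpτ n)

end Pool.Agent.PAC
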