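import Mathlib

/-!
# Order-theoretic part: gaps, the stack order, and the order `Tri g`
-/

namespace Pool.Agent.PAC

/-! ## Gaps -/

/-- `(A, B)` is a gap of size `m` in the suborder `D`. -/
structure Gap {α : Type*} [LinearOrder α] (D : Set α) (m : ℕ) (A B : Set α) : Prop where
  subA : A ⊆ D
  subB : B ⊆ D
  low : ∀ a ∈ A, ∀ y ∈ D, y < a → y ∈ A
  up : ∀ b ∈ B, ∀ y ∈ D, b < y → y ∈ B
  neA : A.Nonempty
  neB : B.Nonempty
  nomax : ∀ a ∈ A, ∃ a' ∈ A, a < a'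
  nomin : ∀ b ∈ B, ∃ b' ∈ B, b' < b
  sep : ∀ a ∈ A, ∀ b ∈ B, a < b
  fin : (D \ (A ∪ B)).Finite
  card : (D \ (A ∪ B)).ncard = m

section Gap
variable {α : Type*} [LinearOrder α] {D A B : Set α} {m : ℕ}

theorem infinite_of_nomax (hA : ∀ a ∈ A, ∃ a' ∈ A, a < a') {z : α} (hz : z ∈ A) :
    (A ∩ Set.Ici z).Infinite := by
  intro hfin
  obtain ⟨w, hw, hmax⟩ := Set.exists_max_image (A ∩ Set.Ici z) id hfin ⟨z, hz, le_refl z⟩
  obtain ⟨a', ha', hlt⟩ := hA w hw.1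
  have := hmax a' ⟨ha', le_trans hw.2 hlt.le⟩
  exact absurd hlt (not_lt.mpr this)

theorem infinite_of_nomin (hB : ∀ b ∈ B, ∃ b' ∈ B, b' < b) {z : α} (hz : z ∈ B) :
    (B ∩ Set.Iic z).Infinite := by
  intro hfin
  obtain ⟨w, hw, hmin⟩ := Set.exists_min_image (B ∩ Set.Iic z) id hfin ⟨z, hz, le_refl z⟩
  obtain ⟨a', ha', hlt⟩ := hB w hw.1
  have := hmin a' ⟨ha', le_trans hlt.le hw.2⟩
  exact absurd hlt (not_lt.mpr this)

theorem Gap.fdA (h : Gap D m A B) {z z' : α} (hz' : z' ∈ D) (hlt : z < z')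
    (hf : (D ∩ Set.Ioo z z').Finite) (hzA : z ∈ A) : z' ∈ A := by
  by_contra hcon
  refine infinite_of_nomax h.nomax hzA ?_
  refine (hf.union (Set.finite_singleton z)).subset ?_
  rintro w ⟨hwA, hwz⟩
  rcases eq_or_lt_of_le hwz with rfl | hlt'
  · right; rfl
  · left
    refine ⟨h.subA hwA, hlt', ?_⟩
    by_contra hge
    rcases eq_or_lt_of_le (not_lt.mp hge) with rfl | h2
    · exact hcon hwA
    · exact hcon (h.low w hwA z' hz' h2)

theorem Gap.fdB (h : Gap D m A B) {z z' : α} (hz : z ∈ D) (hlt : z < z')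
    (hf : (D ∩ Set.Ioo z z').Finite) (hzB : z' ∈ B) : z ∈ B := by
  by_contra hcon
  refine infinite_of_nomin h.nomin hzB ?_
  refine (hf.union (Set.finite_singleton z')).subset ?_
  rintro w ⟨hwB, hwz⟩
  rcases eq_or_lt_of_le hwz with rfl | hlt'
  · right; rfl
  · left
    refine ⟨h.subB hwB, ?_, hlt'⟩
    by_contra hge
    rcases eq_or_lt_of_le (not_lt.mp hge) with rfl | h2
    · exact hcon hwB
    · exact hcon (h.up w hwB z hz h2)

/-- elements at finite distance lie in the same part of a gap -/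
theorem Gap.fdF (h : Gap D m A B) {z z' : α} (hz : z ∈ D) (hz' : z' ∈ D) (hlt : z < z')
    (hf : (D ∩ Set.Ioo z z').Finite) :
    z ∈ D \ (A ∪ B) ↔ z' ∈ D \ (A ∪ B) := by
  constructor
  · rintro ⟨-, hn⟩
    refine ⟨hz', ?_⟩
    rintro (hA | hB)
    · exact hn (Or.inl (h.low z' hA z hz hlt))
    · exact hn (Or.inr (h.fdB hz hlt hf hB))
  · rintro ⟨-, hn⟩
    refine ⟨hz, ?_⟩
    rintro (hA | hB)
    · exact hn (Or.inl (h.fdA hz' hlt hf hA))
    · exact hn (Or.inr (h.up z hB z' hz' hlt))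

end Gap

/-! ## The stack order -/

/-- `s` is still alive at time `t` -/
def Alive (g : ℕ → ℕ) (s t : ℕ) : Prop := ∀ r, s < r → r ≤ t → g s < g r

/-- the stack order of `g` -/
def Sto (g : ℕ → ℕ) (s t : ℕ) : Prop := (s < t ∧ Alive g s t) ∨ (t < s ∧ ¬ Alive g t s)

/-- `s` is alive forever -/
def Fa (g : ℕ → ℕ) (s : ℕ) : Prop := ∀ r, s < r → g s < g r

theorem Alive.trans {g : ℕ → ℕ} {s t u : ℕ} (hst : s < t) (h1 : Alive g s t) (h2 : Alive g t u) :
    Alive g s u := by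
  intro r hr hru
  rcases le_or_gt r t with h | h
  · exact h1 r hr h
  · exact lt_trans (h1 t hst le_rfl) (h2 r h hru)

theorem Alive.mono {g : ℕ → ℕ} {s t u : ℕ} (htu : t ≤ u) (h : Alive g s u) : Alive g s t :=
  fun r hr hrt => h r hr (le_trans hrt htu)

theorem sto_irrefl (g : ℕ → ℕ) (s : ℕ) : ¬ Sto g s s := by
  rintro (⟨h, -⟩ | ⟨h, -⟩) <;> exact lt_irrefl _ h

theorem sto_total (g : ℕ → ℕ) {s t : ℕ} (h : s ≠ t) : Sto g s t ∨ Sto g t s := by
  rcases lt_or_gt_of_ne h with h | h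
  · by_cases ha : Alive g s t
    · exact Or.inl (Or.inl ⟨h, ha⟩)
    · exact Or.inr (Or.inr ⟨h, ha⟩)
  · by_cases ha : Alive g t s
    · exact Or.inr (Or.inl ⟨h, ha⟩)
    · exact Or.inl (Or.inr ⟨h, ha⟩)

theorem sto_trans (g : ℕ → ℕ) {s t u : ℕ} (h1 : Sto g s t) (h2 : Sto g t u) : Sto g s u := by
  rcases h1 with ⟨hst, ha⟩ | ⟨hts, ha⟩ <;> rcases h2 with ⟨htu, hb⟩ | ⟨hut, hb⟩
  · -- s < t < u
    exact Or.inl ⟨hst.trans htu, ha.trans hst hb⟩
  · -- s < t, u < t, u dead at t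
    rcases lt_trichotomy s u with h | h | h
    · exact Or.inl ⟨h, ha.mono hut.le⟩
    · subst h; exact absurd ha hb
    · -- u < s < t : s alive at t, u dead at t; show u dead at s
      refine Or.inr ⟨h, fun hc => hb (hc.trans h ha)⟩
  · -- t < s, t dead at s ; t < u, t alive at u
    rcases lt_trichotomy s u with h | h | h
    · exact absurd (hb.mono h.le) ha
    · subst h; exact absurd hb ha
    · -- t < u < s : need u dead at s
      refine Or.inr ⟨h, fun hc => ha (hb.trans htu hc)⟩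
  · -- u < t < s, u dead at t, t dead at s
    refine Or.inr ⟨hut.trans hts, fun hc => hb (hc.mono hts.le)⟩

theorem Fa.alive {g : ℕ → ℕ} {s : ℕ} (h : Fa g s) (t : ℕ) : Alive g s t := fun r hr _ => h r hr

theorem sto_lt_of_fa {g : ℕ → ℕ} {s t : ℕ} (h : Fa g s) (hts : Sto g t s) : t < s := by
  rcases hts with ⟨h1, -⟩ | ⟨h1, h2⟩
  · exact h1
  · exact absurd (h.alive t) h2

theorem finite_left_of_fa {g : ℕ → ℕ} {s : ℕ} (h : Fa g s) : {t | Sto g t s}.Finite :=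
  (Set.finite_lt_nat s).subset fun _ ht => sto_lt_of_fa h ht

theorem not_fa {g : ℕ → ℕ} {s : ℕ} (h : ¬ Fa g s) : ∃ r, s < r ∧ ∀ t, r ≤ t → ¬ Alive g s t := by
  unfold Fa at h
  push Not at h
  obtain ⟨r, hr, hgr⟩ := h
  exact ⟨r, hr, fun t ht ha => absurd (ha r hr ht) (not_lt.mpr hgr)⟩

theorem finite_right_of_not_fa {g : ℕ → ℕ} {s : ℕ} (h : ¬ Fa g s) : {t | Sto g s t}.Finite := by
  obtain ⟨r, hr, hd⟩ := not_fa h
  refine (Set.finite_lt_nat r).subset fun t ht => ?_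
  show t < r
  by_contra hc
  have hc := not_lt.mp hc
  rcases ht with ⟨_, h2⟩ | ⟨h1, _⟩
  · exact hd t hc h2
  · omega

theorem fa_of_sto {g : ℕ → ℕ} {s t : ℕ} (h : Fa g s) (hts : Sto g t s) : Fa g t := by
  rcases hts with ⟨h1, h2⟩ | ⟨h1, h2⟩
  · intro r hr
    rcases le_or_gt r s with h3 | h3
    · exact h2 r hr h3
    · exact lt_trans (h2 s h1 le_rfl) (h r h3)
  · exact absurd (h.alive t) h2

end Pool.Agent.PAC
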