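import Pool.Agent.PAC.Bridge

/-!
# Strings, numeric codes of nodes, isolated paths
-/

namespace Pool.Agent.PAC

/-- one step of the conversion -/
def stp (v : List Bool × ℕ) : List Bool × ℕ := (decide (v.2 % 2 = 1) :: v.1, v.2 / 2)

/-- the `k`-th string of length `n` -/
def lst (n k : ℕ) : List Bool := (stp^[n] ([], k)).1

theorem stp_iter (n : ℕ) : ∀ (l : List Bool) (k : ℕ), (stp^[n] (l, k)).1 = lst n k ++ l := by
  induction n with
  | zero => intro l k; simp [lst]
  | succ n ih =>
    intro l k
    unfold lst
    rw [Function.iterate_succ_apply, Function.iterate_succ_apply]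
    change (stp^[n] (decide (k % 2 = 1) :: l, k / 2)).1 =
      (stp^[n] (decide (k % 2 = 1) :: [], k / 2)).1 ++ l
    rw [ih, ih]
    simp

theorem lst_zero (k : ℕ) : lst 0 k = [] := rfl

theorem lst_succ (n k : ℕ) : lst (n + 1) k = lst n (k / 2) ++ [decide (k % 2 = 1)] := by
  conv_lhs => unfold lst
  rw [Function.iterate_succ_apply]
  change (stp^[n] (decide (k % 2 = 1) :: [], k / 2)).1 = _
  rw [stp_iter]

theorem lst_length (n : ℕ) : ∀ k, (lst n k).length = n := by
  induction n with
  | zero => intro k; rfl
  | succ n ih => intro k; rw [lst_succ]; simp [ih]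

theorem lst_inj {n : ℕ} : ∀ {k k' : ℕ}, k < 2 ^ n → k' < 2 ^ n → lst n k = lst n k' → k = k' := by
  induction n with
  | zero => intro k k' h1 h2 _; simp at h1 h2; omega
  | succ n ih =>
    intro k k' h1 h2 h
    rw [lst_succ, lst_succ] at h
    have h3 := List.append_inj' h rfl
    rw [pow_succ] at h1 h2
    have h4 := ih (by omega) (by omega) h3.1
    have h5 : (decide (k % 2 = 1)) = decide (k' % 2 = 1) := by simpa using h3.2
    have h6 : (k % 2 = 1) ↔ (k' % 2 = 1) := by simpa using h5
    omega

theorem lst_primrec : Primrec₂ lst := by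
  have hstp : Primrec stp := by
    unfold stp
    refine Primrec.pair (Primrec.list_cons.comp ?_ Primrec.fst) (Primrec.nat_div.comp Primrec.snd (Primrec.const 2))
    exact (Primrec.eq.comp (Primrec.nat_mod.comp Primrec.snd (Primrec.const 2))
      (Primrec.const 1)).decide
  have : Primrec fun v : ℕ × ℕ => (stp^[v.1] ([], v.2)).1 :=
    Primrec.fst.comp (Primrec.nat_iterate Primrec.fst (Primrec.pair (Primrec.const []) Primrec.snd)
      (hstp.comp Primrec.snd).to₂)
  exact this

/-- numeric value of the initial segments of a sequence -/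
def num (f : ℕ → Bool) : ℕ → ℕ
  | 0 => 0
  | n + 1 => 2 * num f n + (f n).toNat

theorem toNat_le (b : Bool) : b.toNat ≤ 1 := by cases b <;> simp

theorem toNat_inj' {b c : Bool} (h : b.toNat = c.toNat) : b = c := by
  cases b <;> cases c <;> simp_all

theorem num_isP (f : ℕ → Bool) : IsP (num f) := by
  refine ⟨rfl, fun n => ?_⟩
  have := toNat_le (f n)
  show (2 * num f n + (f n).toNat) / 2 = num f n
  omega

theorem lst_num (f : ℕ → Bool) (n : ℕ) : lst n (num f n) = List.ofFn (fun i : Fin n => f i) := by
  induction n with
  | zero => simp [lst_zero]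
  | succ n ih =>
    rw [lst_succ, List.ofFn_succ', List.concat_eq_append, (num_isP f).2 n, ih]
    congr 1
    show [decide ((2 * num f n + (f n).toNat) % 2 = 1)] = [f n]
    have : (2 * num f n + (f n).toNat) % 2 = (f n).toNat := by
      have := toNat_le (f n)
      omega
    rw [this]
    cases f n <;> simp

/-- digits of a numeric path -/
def dig (p : ℕ → ℕ) (n : ℕ) : Bool := decide (p (n + 1) % 2 = 1)

theorem num_dig {p : ℕ → ℕ} (hp : IsP p) : num (dig p) = p := by
  funext n
  induction n with
  | zero => exact hp.1.symm
  | succ n ih =>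
    show 2 * num (dig p) n + (dig p n).toNat = p (n + 1)
    have h1 := hp.2 n
    rw [ih]
    unfold dig
    by_cases h : p (n + 1) % 2 = 1
    · simp only [h, decide_true, Bool.toNat_true]; omega
    · simp only [h, decide_false, Bool.toNat_false]; omega

theorem num_injective {f h : ℕ → Bool} (hfh : num f = num h) : f = h := by
  funext n
  have h1 : num f (n + 1) = num h (n + 1) := congrFun hfh _
  have h2 : num f n = num h n := congrFun hfh _
  change 2 * num f n + (f n).toNat = 2 * num h n + (h n).toNat at h1
  have h3 : (f n).toNat = (h n).toNat := by omega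
  exact toNat_inj' h3

theorem num_congr {f h : ℕ → Bool} {n : ℕ} (H : ∀ i < n, f i = h i) : num f n = num h n := by
  induction n with
  | zero => rfl
  | succ n ih =>
    show 2 * num f n + (f n).toNat = 2 * num h n + (h n).toNat
    rw [ih fun i hi => H i (by omega), H n (by omega)]

theorem lex_iff (f h : ℕ → Bool) :
    (∃ n, (∀ i < n, f i = h i) ∧ f n = false ∧ h n = true) ↔ ∃ n, num f n < num h n := by
  constructor
  · rintro ⟨n, h1, h2, h3⟩
    refine ⟨n + 1, ?_⟩
    show 2 * num f n + (f n).toNat < 2 * num h n + (h n).toNat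
    rw [num_congr h1, h2, h3]
    simp
  · intro hex
    classical
    have hspec := Nat.find_spec hex
    have hmin := fun (k : ℕ) => Nat.find_min (m := k) hex
    set N := Nat.find hex
    obtain ⟨n, hn⟩ : ∃ n, N = n + 1 := by
      refine ⟨N - 1, ?_⟩
      have : N ≠ 0 := by
        intro h0
        rw [h0] at hspec
        exact lt_irrefl _ hspec
      omega
    rw [hn] at hspec hmin
    have hEq : ∀ k ≤ n, num f k = num h k := by
      intro k hk
      have h1 := hmin k (by omega)
      rcases lt_trichotomy (num f k) (num h k) with h2 | h2 | h2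
      · exact absurd h2 h1
      · exact h2
      · have := (num_isP h).lt_mono (num_isP f) (show k ≤ n + 1 by omega) h2
        omega
    change 2 * num f n + (f n).toNat < 2 * num h n + (h n).toNat at hspec
    rw [hEq n le_rfl] at hspec
    refine ⟨n, ?_, ?_, ?_⟩
    · intro i hi
      have h1 := hEq (i + 1) (by omega)
      have h2 := hEq i (by omega)
      change 2 * num f i + (f i).toNat = 2 * num h i + (h i).toNat at h1
      have h3 : (f i).toNat = (h i).toNat := by omega
      exact toNat_inj' h3
    · have := toNat_le (h n)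
      by_contra hcon
      have : f n = true := by simpa using hcon
      rw [this] at hspec
      simp at hspec
      omega
    · by_contra hcon
      have : h n = false := by simpa using hcon
      rw [this] at hspec
      simp at hspec

theorem computable_of_dig {p : ℕ → ℕ} (hp : IsP p) (h : Computable (dig p)) : Computable p := by
  have h1 : Computable fun n : ℕ => (Nat.rec 0 (fun k v => 2 * v + (dig p k).toNat) n : ℕ) := by
    refine Computable.nat_rec (f := fun n : ℕ => n) (g := fun _ : ℕ => (0 : ℕ))
      (h := fun (_ : ℕ) (v : ℕ × ℕ) => 2 * v.2 + (dig p v.1).toNat)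
      Computable.id (Computable.const 0) ?_
    have hk : Computable (fun v : ℕ × (ℕ × ℕ) => v.2.1) := Computable.fst.comp Computable.snd
    have hv : Computable (fun v : ℕ × (ℕ × ℕ) => v.2.2) := Computable.snd.comp Computable.snd
    have hd : Computable (fun v : ℕ × (ℕ × ℕ) => dig p v.2.1) := h.comp hk
    have ht : Computable (fun v : ℕ × (ℕ × ℕ) => (dig p v.2.1).toNat) :=
      (Primrec.dom_bool Bool.toNat).to_comp.comp hd
    exact Primrec.nat_add.to_comp.comp (Primrec.nat_mul.to_comp.comp (Computable.const 2) hv) ht
  refine h1.of_eq fun n => ?_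
  conv_rhs => rw [← num_dig hp]
  induction n with
  | zero => rfl
  | succ n ih =>
    show 2 * _ + _ = 2 * num (dig p) n + (dig p n).toNat
    rw [ih]

end Pool.Agent.PAC
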