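import Pool.Agent.PAC.Order

/-!
# Gaps seen in a tree (numeric representation of nodes)
-/

namespace Pool.Agent.PAC

/-- numeric path -/
def IsP (p : ℕ → ℕ) : Prop := p 0 = 0 ∧ ∀ n, p (n + 1) / 2 = p n

/-- the tree `τ` represents `D` through the isolated paths `φ` -/
structure Rep {α : Type*} [LinearOrder α] (τ : ℕ → ℕ → Prop) (D : Set α) (φ : α → ℕ → ℕ) :
    Prop where
  isP : ∀ y ∈ D, IsP (φ y)
  mem : ∀ y ∈ D, ∀ n, τ n (φ y n)
  dense : ∀ n k, k < 2 ^ n → τ n k → ∃ y ∈ D, φ y n = k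
  iso : ∀ y ∈ D, ∃ n, ∀ p, IsP p → (∀ m, τ m (p m)) → p n = φ y n → p = φ y
  ord : ∀ y ∈ D, ∀ z ∈ D, (y < z ↔ ∃ n, φ y n < φ z n)

/-- a gap seen in the tree -/
structure GapT (τ : ℕ → ℕ → Prop) (m n0 : ℕ) (p q : ℕ → ℕ) : Prop where
  le : ∀ n, p n ≤ q n
  left : ∀ b, ∃ n, b ≤ n ∧ p (n + 1) = 2 * p n + 1 ∧ τ (n + 1) (2 * p n)
  right : ∀ b, ∃ n, b ≤ n ∧ q (n + 1) = 2 * q n ∧ τ (n + 1) (2 * q n + 1)
  cnt : ∀ n, n0 ≤ n → {k | p n < k ∧ k < q n ∧ τ n k}.ncard = m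

theorem IsP.lt_two_pow {p : ℕ → ℕ} (h : IsP p) (n : ℕ) : p n < 2 ^ n := by
  induction n with
  | zero => simp [h.1]
  | succ n ih =>
    have := h.2 n
    rw [pow_succ]
    omega

theorem IsP.lt_mono {p q : ℕ → ℕ} (hp : IsP p) (hq : IsP q) {n m : ℕ} (hnm : n ≤ m)
    (h : p n < q n) : p m < q m := by
  induction m, hnm using Nat.le_induction with
  | base => exact h
  | succ m _ ih =>
    have h1 := hp.2 m
    have h2 := hq.2 m
    omega

theorem IsP.eq_down {p q : ℕ → ℕ} (hp : IsP p) (hq : IsP q) {n m : ℕ} (hnm : n ≤ m)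
    (h : p m = q m) : p n = q n := by
  rcases lt_trichotomy (p n) (q n) with h1 | h1 | h1
  · have := hp.lt_mono hq hnm h1
    omega
  · exact h1
  · have := hq.lt_mono hp hnm h1
    omega

theorem IsP.exists_lt {p q : ℕ → ℕ} (hle : ∀ n, p n ≤ q n)
    (hne : p ≠ q) : ∃ n, p n < q n := by
  by_contra hcon
  push Not at hcon
  exact hne (funext fun n => le_antisymm (hle n) (hcon n))

section
variable {α : Type*} [LinearOrder α] {τ : ℕ → ℕ → Prop} {D A B : Set α} {φ : α → ℕ → ℕ} {m : ℕ}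

theorem Rep.le_of_not_lt (hR : Rep τ D φ) {y z : α} (hy : y ∈ D) (hz : z ∈ D) (h : ¬ z < y)
    (n : ℕ) : φ y n ≤ φ z n := by
  by_contra hcon
  exact h ((hR.ord z hz y hy).2 ⟨n, not_le.1 hcon⟩)

/-- from a gap in the order to a gap in the tree -/
theorem Rep.toTree (hR : Rep τ D φ) (hG : Gap D m A B) : ∃ p q : ℕ → ℕ, ∃ n0,
    IsP p ∧ IsP q ∧ (∀ n, τ n (p n)) ∧ (∀ n, τ n (q n)) ∧ GapT τ m n0 p q ∧
    (∀ y ∈ A, ∀ n, φ y n ≤ p n) ∧ (∀ y ∈ D, y ∉ A → ∀ n, p n ≤ φ y n) ∧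
    (∀ y ∈ B, ∀ n, q n ≤ φ y n) ∧ (∀ y ∈ D, y ∉ B → ∀ n, φ y n ≤ q n) := by
  classical
  set p : ℕ → ℕ := fun n => sSup ((fun y => φ y n) '' A) with hpdef
  set q : ℕ → ℕ := fun n => sInf ((fun y => φ y n) '' B) with hqdef
  have hbdd : ∀ n, BddAbove ((fun y => φ y n) '' A) := by
    intro n
    refine ⟨2 ^ n, ?_⟩
    rintro _ ⟨y, hy, rfl⟩
    exact ((hR.isP y (hG.subA hy)).lt_two_pow n).le
  have hpa : ∀ n, ∃ y ∈ A, φ y n = p n := by
    intro n
    have := Nat.sSup_mem (hG.neA.image (fun y => φ y n)) (hbdd n)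
    exact this
  have hqa : ∀ n, ∃ y ∈ B, φ y n = q n := by
    intro n
    have := Nat.sInf_mem (hG.neB.image (fun y => φ y n))
    exact this
  have hple : ∀ y ∈ A, ∀ n, φ y n ≤ p n := fun y hy n => le_csSup (hbdd n) ⟨y, hy, rfl⟩
  have hqle : ∀ y ∈ B, ∀ n, q n ≤ φ y n := fun y hy n => Nat.sInf_le ⟨y, hy, rfl⟩
  have hpP : IsP p := by
    constructor
    · obtain ⟨y, hy, h⟩ := hpa 0
      rw [← h]; exact (hR.isP y (hG.subA hy)).1
    · intro n
      obtain ⟨y, hy, h⟩ := hpa (n + 1)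
      obtain ⟨z, hz, h'⟩ := hpa n
      have h1 := (hR.isP y (hG.subA hy)).2 n
      have h2 := (hR.isP z (hG.subA hz)).2 n
      have h3 := hple y hy n
      have h4 := hple z hz (n + 1)
      omega
  have hqP : IsP q := by
    constructor
    · obtain ⟨y, hy, h⟩ := hqa 0
      rw [← h]; exact (hR.isP y (hG.subB hy)).1
    · intro n
      obtain ⟨y, hy, h⟩ := hqa (n + 1)
      obtain ⟨z, hz, h'⟩ := hqa n
      have h1 := (hR.isP y (hG.subB hy)).2 n
      have h2 := (hR.isP z (hG.subB hz)).2 n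
      have h3 := hqle y hy n
      have h4 := hqle z hz (n + 1)
      omega
  have hpτ : ∀ n, τ n (p n) := by
    intro n
    obtain ⟨y, hy, h⟩ := hpa n
    rw [← h]; exact hR.mem y (hG.subA hy) n
  have hqτ : ∀ n, τ n (q n) := by
    intro n
    obtain ⟨y, hy, h⟩ := hqa n
    rw [← h]; exact hR.mem y (hG.subB hy) n
  have hpD : ∀ y ∈ D, y ∉ A → ∀ n, p n ≤ φ y n := by
    intro y hy hyA n
    obtain ⟨z, hz, h⟩ := hpa n
    rw [← h]
    refine hR.le_of_not_lt (hG.subA hz) hy (fun hlt => hyA (hG.low z hz y hy hlt)) n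
  have hqD : ∀ y ∈ D, y ∉ B → ∀ n, φ y n ≤ q n := by
    intro y hy hyB n
    obtain ⟨z, hz, h⟩ := hqa n
    rw [← h]
    refine hR.le_of_not_lt hy (hG.subB hz) (fun hlt => hyB (hG.up z hz y hy hlt)) n
  have hplt : ∀ y ∈ A, ∃ n, φ y n < p n := by
    intro y hy
    obtain ⟨z, hz, hlt⟩ := hG.nomax y hy
    obtain ⟨n, hn⟩ := (hR.ord y (hG.subA hy) z (hG.subA hz)).1 hlt
    exact ⟨n, lt_of_lt_of_le hn (hple z hz n)⟩
  have hqlt : ∀ y ∈ B, ∃ n, q n < φ y n := by
    intro y hy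
    obtain ⟨z, hz, hlt⟩ := hG.nomin y hy
    obtain ⟨n, hn⟩ := (hR.ord z (hG.subB hz) y (hG.subB hy)).1 hlt
    exact ⟨n, lt_of_le_of_lt (hqle z hz n) hn⟩
  have hpne : ∀ y ∈ D, φ y ≠ p := by
    intro y hy hEq
    obtain ⟨n, hn⟩ := hR.iso y hy
    obtain ⟨z, hz, h⟩ := hpa n
    have := hn (φ z) (hR.isP z (hG.subA hz)) (hR.mem z (hG.subA hz)) (by rw [h, hEq])
    obtain ⟨k, hk⟩ := hplt z hz
    rw [this, hEq] at hk
    exact lt_irrefl _ hk
  have hqne : ∀ y ∈ D, φ y ≠ q := by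
    intro y hy hEq
    obtain ⟨n, hn⟩ := hR.iso y hy
    obtain ⟨z, hz, h⟩ := hqa n
    have := hn (φ z) (hR.isP z (hG.subB hz)) (hR.mem z (hG.subB hz)) (by rw [h, hEq])
    obtain ⟨k, hk⟩ := hqlt z hz
    rw [this, hEq] at hk
    exact lt_irrefl _ hk
  -- the level from which on everything is separated
  set F := D \ (A ∪ B) with hFdef
  have hev : ∃ n0, ∀ n, n0 ≤ n → (∀ y ∈ F, p n < φ y n ∧ φ y n < q n) ∧
      (∀ y ∈ F, ∀ z ∈ F, y ≠ z → φ y n ≠ φ z n) := by
    have h1 : ∀ y ∈ F, ∀ᶠ n in Filter.atTop, (p n < φ y n ∧ φ y n < q n) := by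
      intro y hy
      have hyA : y ∉ A := fun h => hy.2 (Or.inl h)
      have hyB : y ∉ B := fun h => hy.2 (Or.inr h)
      obtain ⟨n1, hn1⟩ := IsP.exists_lt (hpD y hy.1 hyA) (hpne y hy.1).symm
      obtain ⟨n2, hn2⟩ := IsP.exists_lt (hqD y hy.1 hyB) (hqne y hy.1)
      filter_upwards [Filter.eventually_ge_atTop n1, Filter.eventually_ge_atTop n2] with n h1 h2
      exact ⟨hpP.lt_mono (hR.isP y hy.1) h1 hn1, (hR.isP y hy.1).lt_mono hqP h2 hn2⟩
    have h2 : ∀ y ∈ F, ∀ z ∈ F, ∀ᶠ n in Filter.atTop, (y ≠ z → φ y n ≠ φ z n) := by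
      intro y hy z hz
      by_cases hyz : y = z
      · exact Filter.Eventually.of_forall fun n h => absurd hyz h
      · rcases lt_or_gt_of_ne hyz with h | h
        · obtain ⟨k, hk⟩ := (hR.ord y hy.1 z hz.1).1 h
          filter_upwards [Filter.eventually_ge_atTop k] with n hn _
          exact ((hR.isP y hy.1).lt_mono (hR.isP z hz.1) hn hk).ne
        · obtain ⟨k, hk⟩ := (hR.ord z hz.1 y hy.1).1 h
          filter_upwards [Filter.eventually_ge_atTop k] with n hn _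
          exact ((hR.isP z hz.1).lt_mono (hR.isP y hy.1) hn hk).ne'
    have h3 := (Set.Finite.eventually_all hG.fin).2 h1
    have h4 : ∀ᶠ n in Filter.atTop, ∀ y ∈ F, ∀ z ∈ F, (y ≠ z → φ y n ≠ φ z n) := by
      refine (Set.Finite.eventually_all hG.fin).2 ?_
      intro y hy
      exact (Set.Finite.eventually_all hG.fin).2 (h2 y hy)
    obtain ⟨n0, hn0⟩ := Filter.eventually_atTop.1 (h3.and h4)
    exact ⟨n0, fun n hn => hn0 n hn⟩
  obtain ⟨n0, hn0⟩ := hev
  refine ⟨p, q, n0, hpP, hqP, hpτ, hqτ, ?_, hple, hpD, hqle, hqD⟩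
  refine ⟨?_, ?_, ?_, ?_⟩
  · intro n
    obtain ⟨y, hy, h⟩ := hpa n
    obtain ⟨z, hz, h'⟩ := hqa n
    rw [← h, ← h']
    exact hR.le_of_not_lt (hG.subA hy) (hG.subB hz)
      (not_lt.2 (hG.sep y hy z hz).le) n
  · intro b
    obtain ⟨y, hy, h⟩ := hpa b
    have hyP := hR.isP y (hG.subA hy)
    have hex := hplt y hy
    have hmin := fun (k : ℕ) => Nat.find_min (m := k) hex
    have hspec := Nat.find_spec hex
    set N := Nat.find hex with hN
    have hbN : b < N := by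
      by_contra hcon
      have := hyP.lt_mono hpP (not_lt.1 hcon) hspec
      omega
    obtain ⟨n, hn⟩ : ∃ n, N = n + 1 := ⟨N - 1, by omega⟩
    have h1 : φ y n = p n := by
      have := hmin n (by omega)
      have := hple y hy n
      omega
    rw [hn] at hspec
    have h2 := hyP.2 n
    have h3 := hpP.2 n
    refine ⟨n, by omega, by omega, ?_⟩
    have h4 : 2 * p n = φ y (n + 1) := by omega
    rw [h4]
    exact hR.mem y (hG.subA hy) (n + 1)
  · intro b
    obtain ⟨y, hy, h⟩ := hqa b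
    have hyP := hR.isP y (hG.subB hy)
    have hex := hqlt y hy
    have hmin := fun (k : ℕ) => Nat.find_min (m := k) hex
    have hspec := Nat.find_spec hex
    set N := Nat.find hex with hN
    have hbN : b < N := by
      by_contra hcon
      have := hqP.lt_mono hyP (not_lt.1 hcon) hspec
      omega
    obtain ⟨n, hn⟩ : ∃ n, N = n + 1 := ⟨N - 1, by omega⟩
    have h1 : φ y n = q n := by
      have := hmin n (by omega)
      have := hqle y hy n
      omega
    rw [hn] at hspec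
    have h2 := hyP.2 n
    have h3 := hqP.2 n
    refine ⟨n, by omega, by omega, ?_⟩
    have h4 : 2 * q n + 1 = φ y (n + 1) := by omega
    rw [h4]
    exact hR.mem y (hG.subB hy) (n + 1)
  · intro n hn
    have hEq : {k | p n < k ∧ k < q n ∧ τ n k} = (fun y => φ y n) '' F := by
      apply Set.Subset.antisymm
      · rintro k ⟨hk1, hk2, hk3⟩
        obtain ⟨y, hy, rfl⟩ := hR.dense n k (hk2.trans (hqP.lt_two_pow n)) hk3
        refine ⟨y, ⟨hy, ?_⟩, rfl⟩
        rintro (h | h)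
        · exact absurd (hple y h n) (not_le.2 hk1)
        · exact absurd (hqle y h n) (not_le.2 hk2)
      · rintro _ ⟨y, hy, rfl⟩
        exact ⟨((hn0 n hn).1 y hy).1, ((hn0 n hn).1 y hy).2, hR.mem y hy.1 n⟩
    rw [hEq, Set.InjOn.ncard_image, hG.card]
    intro y hy z hz hyz
    by_contra hne
    exact (hn0 n hn).2 y hy z hz hne hyz

/-- from a gap in the tree to a gap in the order -/
theorem Rep.toOrder (hR : Rep τ D φ) {p q : ℕ → ℕ} {n0 : ℕ} (hp : IsP p) (hq : IsP q)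
    (hG : GapT τ m n0 p q) : Gap D m {y | y ∈ D ∧ ∃ n, φ y n < p n} {y | y ∈ D ∧ ∃ n, q n < φ y n} := by
  classical
  set A : Set α := {y | y ∈ D ∧ ∃ n, φ y n < p n} with hA
  set B : Set α := {y | y ∈ D ∧ ∃ n, q n < φ y n} with hB
  have hAex : ∀ b, ∃ y ∈ A, φ y b = p b := by
    intro b
    obtain ⟨n, hbn, h1, h2⟩ := hG.left b
    have h3 := hp.lt_two_pow (n + 1)
    obtain ⟨y, hy, h4⟩ := hR.dense (n + 1) (2 * p n) (by omega) h2
    refine ⟨y, ⟨hy, n + 1, by omega⟩, ?_⟩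
    have h5 := (hR.isP y hy).2 n
    exact (hR.isP y hy).eq_down hp hbn (by omega)
  have hBex : ∀ b, ∃ y ∈ B, φ y b = q b := by
    intro b
    obtain ⟨n, hbn, h1, h2⟩ := hG.right b
    have h3 := hq.lt_two_pow (n + 1)
    have h3' := hq.lt_two_pow n
    obtain ⟨y, hy, h4⟩ := hR.dense (n + 1) (2 * q n + 1) (by rw [pow_succ]; omega) h2
    refine ⟨y, ⟨hy, n + 1, by omega⟩, ?_⟩
    have h5 := (hR.isP y hy).2 n
    exact (hR.isP y hy).eq_down hq hbn (by omega)
  have hsep : ∀ a ∈ A, ∀ b ∈ B, a < b := by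
    rintro a ⟨ha, n1, h1⟩ b ⟨hb, n2, h2⟩
    rw [hR.ord a ha b hb]
    refine ⟨max n1 n2, ?_⟩
    have h3 := (hR.isP a ha).lt_mono hp (le_max_left n1 n2) h1
    have h4 := hq.lt_mono (hR.isP b hb) (le_max_right n1 n2) h2
    have h5 := hG.le (max n1 n2)
    omega
  have hFlt : ∀ y ∈ D \ (A ∪ B), (∃ n, p n < φ y n) ∧ (∃ n, φ y n < q n) := by
    rintro y ⟨hy, hn⟩
    have hge : ∀ n, p n ≤ φ y n := by
      intro n
      by_contra hcon
      exact hn (Or.inl ⟨hy, n, not_le.1 hcon⟩)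
    have hle : ∀ n, φ y n ≤ q n := by
      intro n
      by_contra hcon
      exact hn (Or.inr ⟨hy, n, not_le.1 hcon⟩)
    obtain ⟨N, hN⟩ := hR.iso y hy
    constructor
    · refine IsP.exists_lt hge ?_
      intro hEq
      obtain ⟨z, hz, h1⟩ := hAex N
      have h2 := hN (φ z) (hR.isP z hz.1) (hR.mem z hz.1) (by rw [h1, hEq])
      obtain ⟨k, hk⟩ := hz.2
      rw [h2, hEq] at hk
      exact lt_irrefl _ hk
    · refine IsP.exists_lt hle ?_
      intro hEq
      obtain ⟨z, hz, h1⟩ := hBex N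
      have h2 := hN (φ z) (hR.isP z hz.1) (hR.mem z hz.1) (by rw [h1, hEq])
      obtain ⟨k, hk⟩ := hz.2
      rw [h2, hEq] at hk
      exact lt_irrefl _ hk
  -- upper bound
  have hub : ∀ F' : Finset α, (↑F' : Set α) ⊆ D \ (A ∪ B) → F'.card ≤ m := by
    intro F' hF'
    have h1 : ∀ y ∈ F', ∀ᶠ n in Filter.atTop, (p n < φ y n ∧ φ y n < q n) := by
      intro y hy
      obtain ⟨⟨n1, hn1⟩, ⟨n2, hn2⟩⟩ := hFlt y (hF' hy)
      have hyD : y ∈ D := (hF' hy).1
      filter_upwards [Filter.eventually_ge_atTop n1, Filter.eventually_ge_atTop n2] with n h1 h2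
      exact ⟨hp.lt_mono (hR.isP y hyD) h1 hn1, (hR.isP y hyD).lt_mono hq h2 hn2⟩
    have h2 : ∀ y ∈ F', ∀ z ∈ F', ∀ᶠ n in Filter.atTop, (y ≠ z → φ y n ≠ φ z n) := by
      intro y hy z hz
      have hyD : y ∈ D := (hF' hy).1
      have hzD : z ∈ D := (hF' hz).1
      by_cases hyz : y = z
      · exact Filter.Eventually.of_forall fun n h => absurd hyz h
      · rcases lt_or_gt_of_ne hyz with h | h
        · obtain ⟨k, hk⟩ := (hR.ord y hyD z hzD).1 h
          filter_upwards [Filter.eventually_ge_atTop k] with n hn _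
          exact ((hR.isP y hyD).lt_mono (hR.isP z hzD) hn hk).ne
        · obtain ⟨k, hk⟩ := (hR.ord z hzD y hyD).1 h
          filter_upwards [Filter.eventually_ge_atTop k] with n hn _
          exact ((hR.isP z hzD).lt_mono (hR.isP y hyD) hn hk).ne'
    have h3 := (Filter.eventually_all_finset F').2 h1
    have h4 : ∀ᶠ n in Filter.atTop, ∀ y ∈ F', ∀ z ∈ F', (y ≠ z → φ y n ≠ φ z n) := by
      refine (Filter.eventually_all_finset F').2 ?_
      intro y hy
      exact (Filter.eventually_all_finset F').2 (h2 y hy)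
    obtain ⟨n, ⟨h5, h6⟩, h7⟩ := ((h3.and h4).and (Filter.eventually_ge_atTop n0)).exists
    rw [← hG.cnt n h7]
    have hfin : {k | p n < k ∧ k < q n ∧ τ n k}.Finite :=
      (Set.finite_lt_nat (q n)).subset fun k hk => hk.2.1
    have h8 : (F'.image (fun y => φ y n)).card = F'.card := by
      refine Finset.card_image_of_injOn ?_
      intro y hy z hz hyz
      by_contra hne
      exact h6 y hy z hz hne hyz
    rw [← h8, ← Set.ncard_coe_finset]
    refine Set.ncard_le_ncard ?_ hfin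
    intro k hk
    rw [Finset.mem_coe, Finset.mem_image] at hk
    obtain ⟨y, hy, rfl⟩ := hk
    exact ⟨(h5 y hy).1, (h5 y hy).2, hR.mem y (hF' hy).1 n⟩
  have hfinF : (D \ (A ∪ B)).Finite := by
    by_contra hinf
    obtain ⟨F', hF', hcard⟩ := Set.Infinite.exists_subset_card_eq hinf (m + 1)
    have := hub F' hF'
    omega
  refine
    { subA := fun y hy => hy.1
      subB := fun y hy => hy.1
      low := ?_
      up := ?_
      neA := ?_
      neB := ?_
      nomax := ?_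
      nomin := ?_
      sep := hsep
      fin := hfinF
      card := ?_ }
  · rintro a ⟨ha, n1, h1⟩ y hy hlt
    obtain ⟨n2, h2⟩ := (hR.ord y hy a ha).1 hlt
    refine ⟨hy, max n1 n2, ?_⟩
    have h3 := (hR.isP a ha).lt_mono hp (le_max_left n1 n2) h1
    have h4 := (hR.isP y hy).lt_mono (hR.isP a ha) (le_max_right n1 n2) h2
    omega
  · rintro a ⟨ha, n1, h1⟩ y hy hlt
    obtain ⟨n2, h2⟩ := (hR.ord a ha y hy).1 hlt
    refine ⟨hy, max n1 n2, ?_⟩
    have h3 := hq.lt_mono (hR.isP a ha) (le_max_left n1 n2) h1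
    have h4 := (hR.isP a ha).lt_mono (hR.isP y hy) (le_max_right n1 n2) h2
    omega
  · obtain ⟨y, hy, _⟩ := hAex 0
    exact ⟨y, hy⟩
  · obtain ⟨y, hy, _⟩ := hBex 0
    exact ⟨y, hy⟩
  · rintro a ⟨ha, n1, h1⟩
    obtain ⟨z, hz, h2⟩ := hAex n1
    exact ⟨z, hz, (hR.ord a ha z hz.1).2 ⟨n1, by omega⟩⟩
  · rintro a ⟨ha, n1, h1⟩
    obtain ⟨z, hz, h2⟩ := hBex n1
    exact ⟨z, hz, (hR.ord z hz.1 a ha).2 ⟨n1, by omega⟩⟩
  · apply le_antisymm
    · have := hub hfinF.toFinset (by rw [Set.Finite.coe_toFinset])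
      rwa [← Set.ncard_eq_toFinset_card _ hfinF] at this
    · rw [← hG.cnt n0 le_rfl]
      have hsub : {k | p n0 < k ∧ k < q n0 ∧ τ n0 k} ⊆ (fun y => φ y n0) '' (D \ (A ∪ B)) := by
        rintro k ⟨hk1, hk2, hk3⟩
        obtain ⟨y, hy, rfl⟩ := hR.dense n0 k (hk2.trans (hq.lt_two_pow n0)) hk3
        refine ⟨y, ⟨hy, ?_⟩, rfl⟩
        rintro (⟨_, n, h⟩ | ⟨_, n, h⟩)
        · rcases le_total n n0 with h' | h'
          · have := (hR.isP y hy).lt_mono hp h' h
            omega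
          · have := hp.lt_mono (hR.isP y hy) h' hk1
            omega
        · rcases le_total n n0 with h' | h'
          · have := hq.lt_mono (hR.isP y hy) h' h
            omega
          · have := (hR.isP y hy).lt_mono hq h' hk2
            omega
      exact (Set.ncard_le_ncard hsub (hfinF.image _)).trans (Set.ncard_image_le hfinF)

end

end Pool.Agent.PAC
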