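import Pool.Agent.PAC.Order

/-!
# The linear order `Tri g` and its gaps
-/

namespace Pool.Agent.PAC

/-- order inside the fibre `(x, c)`: `c = 0` is `ω`, `c = 1` is the label, `c = 2` is `ω*`,
`c = 3` is the stack order -/
def Fib (g : ℕ → ℕ → ℕ) (x c s s' : ℕ) : Prop :=
  (c ≤ 1 ∧ s < s') ∨ (c = 2 ∧ s' < s) ∨ (3 ≤ c ∧ Sto (g x) s s')

/-- the strict order on triples -/
def LR (g : ℕ → ℕ → ℕ) (p q : ℕ × ℕ × ℕ) : Prop :=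
  p.1 < q.1 ∨ (p.1 = q.1 ∧ (p.2.1 < q.2.1 ∨ (p.2.1 = q.2.1 ∧ Fib g p.1 p.2.1 p.2.2 q.2.2)))

theorem fib_irrefl (g : ℕ → ℕ → ℕ) (x c s : ℕ) : ¬ Fib g x c s s := by
  rintro (⟨_, h⟩ | ⟨_, h⟩ | ⟨_, h⟩)
  · exact lt_irrefl _ h
  · exact lt_irrefl _ h
  · exact sto_irrefl _ _ h

theorem fib_trans (g : ℕ → ℕ → ℕ) {x c s t u : ℕ} (h1 : Fib g x c s t) (h2 : Fib g x c t u) :
    Fib g x c s u := by
  rcases h1 with ⟨hc, h1⟩ | ⟨hc, h1⟩ | ⟨hc, h1⟩ <;> rcases h2 with ⟨hc', h2⟩ | ⟨hc', h2⟩ | ⟨hc', h2⟩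
  · exact Or.inl ⟨hc, h1.trans h2⟩
  · omega
  · omega
  · omega
  · exact Or.inr (Or.inl ⟨hc, h2.trans h1⟩)
  · omega
  · omega
  · omega
  · exact Or.inr (Or.inr ⟨hc, sto_trans _ h1 h2⟩)

theorem fib_total (g : ℕ → ℕ → ℕ) {x c s t : ℕ} (h : s ≠ t) : Fib g x c s t ∨ Fib g x c t s := by
  rcases Nat.lt_or_ge c 2 with hc | hc
  · rcases lt_or_gt_of_ne h with h | h
    · exact Or.inl (Or.inl ⟨by omega, h⟩)
    · exact Or.inr (Or.inl ⟨by omega, h⟩)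
  · rcases eq_or_lt_of_le hc with hc | hc
    · rcases lt_or_gt_of_ne h with h | h
      · exact Or.inr (Or.inr (Or.inl ⟨hc.symm, h⟩))
      · exact Or.inl (Or.inr (Or.inl ⟨hc.symm, h⟩))
    · rcases sto_total (g x) h with h | h
      · exact Or.inl (Or.inr (Or.inr ⟨hc, h⟩))
      · exact Or.inr (Or.inr (Or.inr ⟨hc, h⟩))

theorem lr_irrefl (g : ℕ → ℕ → ℕ) (p : ℕ × ℕ × ℕ) : ¬ LR g p p := by
  rintro (h | ⟨_, h | ⟨_, h⟩⟩)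
  · exact lt_irrefl _ h
  · exact lt_irrefl _ h
  · exact fib_irrefl _ _ _ _ h

theorem lr_trans (g : ℕ → ℕ → ℕ) {p q r : ℕ × ℕ × ℕ} (h1 : LR g p q) (h2 : LR g q r) :
    LR g p r := by
  obtain ⟨x, c, s⟩ := p
  obtain ⟨x', c', s'⟩ := q
  obtain ⟨x'', c'', s''⟩ := r
  simp only [LR] at *
  rcases h1 with h1 | ⟨rfl, h1 | ⟨rfl, h1⟩⟩ <;> rcases h2 with h2 | ⟨rfl, h2 | ⟨rfl, h2⟩⟩
  · exact Or.inl (h1.trans h2)
  · exact Or.inl h1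
  · exact Or.inl h1
  · exact Or.inl h2
  · exact Or.inr ⟨rfl, Or.inl (h1.trans h2)⟩
  · exact Or.inr ⟨rfl, Or.inl h1⟩
  · exact Or.inl h2
  · exact Or.inr ⟨rfl, Or.inl h2⟩
  · exact Or.inr ⟨rfl, Or.inr ⟨rfl, fib_trans g h1 h2⟩⟩

theorem lr_total (g : ℕ → ℕ → ℕ) {p q : ℕ × ℕ × ℕ} (h : p ≠ q) : LR g p q ∨ LR g q p := by
  obtain ⟨x, c, s⟩ := p
  obtain ⟨x', c', s'⟩ := q
  simp only [LR]
  rcases lt_trichotomy x x' with h1 | h1 | h1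
  · exact Or.inl (Or.inl h1)
  · subst h1
    rcases lt_trichotomy c c' with h2 | h2 | h2
    · exact Or.inl (Or.inr ⟨rfl, Or.inl h2⟩)
    · subst h2
      have hs : s ≠ s' := by rintro rfl; exact h rfl
      rcases fib_total g (x := x) (c := c) hs with h3 | h3
      · exact Or.inl (Or.inr ⟨rfl, Or.inr ⟨rfl, h3⟩⟩)
      · exact Or.inr (Or.inr ⟨rfl, Or.inr ⟨rfl, h3⟩⟩)
    · exact Or.inr (Or.inr ⟨rfl, Or.inl h2⟩)
  · exact Or.inr (Or.inl h1)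

/-- type of triples, ordered by `LR g` -/
def Tri (_g : ℕ → ℕ → ℕ) : Type := ℕ × ℕ × ℕ

/-- constructor for `Tri` -/
def tk {g : ℕ → ℕ → ℕ} (x c s : ℕ) : Tri g := (x, c, s)

theorem tri_ext {g : ℕ → ℕ → ℕ} (p : Tri g) : p = tk p.1 p.2.1 p.2.2 := rfl

noncomputable instance (g : ℕ → ℕ → ℕ) : LinearOrder (Tri g) :=
  @linearOrderOfSTO (Tri g) (LR g)
    { trichotomous := fun a b h1 h2 => by
        by_contra h
        rcases lr_total g (p := a) (q := b) h with h3 | h3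
        · exact h1 h3
        · exact h2 h3
      irrefl := lr_irrefl g
      trans := fun _ _ _ h1 h2 => lr_trans g h1 h2 }
    (Classical.decRel _)

theorem tri_lt {g : ℕ → ℕ → ℕ} {p q : Tri g} : p < q ↔ LR g p q := Iff.rfl

theorem tk_lt {g : ℕ → ℕ → ℕ} {x c s x' c' s' : ℕ} :
    (tk x c s : Tri g) < tk x' c' s' ↔ x < x' ∨ (x = x' ∧ (c < c' ∨ (c = c' ∧ Fib g x c s s'))) :=
  Iff.rfl

/-- the domain of the order -/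
def TD (g : ℕ → ℕ → ℕ) : Set (Tri g) := {p | p.2.1 ≤ 3 ∧ (p.2.1 = 1 → p.2.2 ≤ p.1)}

theorem tk_mem {g : ℕ → ℕ → ℕ} {x c s : ℕ} :
    (tk x c s : Tri g) ∈ TD g ↔ c ≤ 3 ∧ (c = 1 → s ≤ x) := Iff.rfl

end Pool.Agent.PAC
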