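import Pool.Agent.PAC.Tri

/-!
# Gaps of `Tri g`
-/

namespace Pool.Agent.PAC

variable {g : ℕ → ℕ → ℕ}

theorem fd01 {x c s s' : ℕ} (hc : c ≤ 1) :
    (TD g ∩ Set.Ioo (tk x c s : Tri g) (tk x c s')).Finite := by
  refine ((Set.finite_lt_nat s').image (fun t => (tk x c t : Tri g))).subset ?_
  rintro ⟨x', c', t⟩ ⟨-, h1, h2⟩
  change (tk x c s : Tri g) < tk x' c' t at h1
  change (tk x' c' t : Tri g) < tk x c s' at h2
  rw [tk_lt] at h1 h2
  have hx : x' = x := by omega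
  subst hx
  have hcc : c' = c := by omega
  subst hcc
  refine ⟨t, ?_, rfl⟩
  show t < s'
  rcases h2 with h | ⟨_, h | ⟨_, h⟩⟩
  · omega
  · omega
  · rcases h with ⟨_, h⟩ | ⟨h, _⟩ | ⟨h, _⟩ <;> omega

theorem fd2 {x s s' : ℕ} :
    (TD g ∩ Set.Ioo (tk x 2 s' : Tri g) (tk x 2 s)).Finite := by
  refine ((Set.finite_lt_nat s').image (fun t => (tk x 2 t : Tri g))).subset ?_
  rintro ⟨x', c', t⟩ ⟨-, h1, h2⟩
  change (tk x 2 s' : Tri g) < tk x' c' t at h1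
  change (tk x' c' t : Tri g) < tk x 2 s at h2
  rw [tk_lt] at h1 h2
  have hx : x' = x := by omega
  subst hx
  have hcc : c' = 2 := by omega
  subst hcc
  refine ⟨t, ?_, rfl⟩
  show t < s'
  rcases h1 with h | ⟨_, h | ⟨_, h⟩⟩
  · omega
  · omega
  · rcases h with ⟨h, _⟩ | ⟨_, h⟩ | ⟨h, _⟩ <;> omega

theorem fd3a {x s s' : ℕ} (hs : Fa (g x) s) :
    (TD g ∩ Set.Ioo (tk x 2 s' : Tri g) (tk x 3 s)).Finite := by
  refine (((Set.finite_lt_nat s').image (fun t => (tk x 2 t : Tri g))).union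
    ((finite_left_of_fa hs).image (fun t => (tk x 3 t : Tri g)))).subset ?_
  rintro ⟨x', c', t⟩ ⟨-, h1, h2⟩
  change (tk x 2 s' : Tri g) < tk x' c' t at h1
  change (tk x' c' t : Tri g) < tk x 3 s at h2
  rw [tk_lt] at h1 h2
  have hx : x' = x := by omega
  subst hx
  have hcc : c' = 2 ∨ c' = 3 := by omega
  rcases hcc with rfl | rfl
  · left
    refine ⟨t, ?_, rfl⟩
    show t < s'
    rcases h1 with h | ⟨_, h | ⟨_, h⟩⟩
    · omega
    · omega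
    · rcases h with ⟨h, _⟩ | ⟨_, h⟩ | ⟨h, _⟩ <;> omega
  · right
    refine ⟨t, ?_, rfl⟩
    show Sto (g x') t s
    rcases h2 with h | ⟨_, h | ⟨_, h⟩⟩
    · omega
    · omega
    · rcases h with ⟨h, _⟩ | ⟨h, _⟩ | ⟨_, h⟩
      · omega
      · omega
      · exact h

theorem fd3b {x s s' : ℕ} (hs : ¬ Fa (g x) s) :
    (TD g ∩ Set.Ioo (tk x 3 s : Tri g) (tk (x + 1) 0 s')).Finite := by
  refine (((Set.finite_lt_nat s').image (fun t => (tk (x + 1) 0 t : Tri g))).union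
    ((finite_right_of_not_fa hs).image (fun t => (tk x 3 t : Tri g)))).subset ?_
  rintro ⟨x', c', t⟩ ⟨hD, h1, h2⟩
  change (tk x 3 s : Tri g) < tk x' c' t at h1
  change (tk x' c' t : Tri g) < tk (x + 1) 0 s' at h2
  change (tk x' c' t : Tri g) ∈ TD g at hD
  rw [tk_mem] at hD
  rw [tk_lt] at h1 h2
  have hcc : (x' = x + 1 ∧ c' = 0) ∨ (x' = x ∧ c' = 3) := by omega
  rcases hcc with ⟨rfl, rfl⟩ | ⟨rfl, rfl⟩
  · left
    refine ⟨t, ?_, rfl⟩
    show t < s'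
    rcases h2 with h | ⟨_, h | ⟨_, h⟩⟩
    · omega
    · omega
    · rcases h with ⟨_, h⟩ | ⟨h, _⟩ | ⟨h, _⟩ <;> omega
  · right
    refine ⟨t, ?_, rfl⟩
    show Sto (g x') s t
    rcases h1 with h | ⟨_, h | ⟨_, h⟩⟩
    · omega
    · omega
    · rcases h with ⟨h, _⟩ | ⟨h, _⟩ | ⟨_, h⟩
      · omega
      · omega
      · exact h

theorem tk_lt_01 {x c s s' : ℕ} (hc : c ≤ 1) (h : s < s') : (tk x c s : Tri g) < tk x c s' :=
  tk_lt.2 (Or.inr ⟨rfl, Or.inr ⟨rfl, Or.inl ⟨hc, h⟩⟩⟩)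

theorem tk_lt_2 {x s s' : ℕ} (h : s < s') : (tk x 2 s' : Tri g) < tk x 2 s :=
  tk_lt.2 (Or.inr ⟨rfl, Or.inr ⟨rfl, Or.inr (Or.inl ⟨rfl, h⟩)⟩⟩)

theorem tk_lt_3 {x s s' : ℕ} (h : Sto (g x) s s') : (tk x 3 s : Tri g) < tk x 3 s' :=
  tk_lt.2 (Or.inr ⟨rfl, Or.inr ⟨rfl, Or.inr (Or.inr ⟨le_rfl, h⟩)⟩⟩)

theorem tk_lt_c {x c c' s s' : ℕ} (h : c < c') : (tk x c s : Tri g) < tk x c' s' :=
  tk_lt.2 (Or.inr ⟨rfl, Or.inl h⟩)

theorem tk_lt_x {x x' c c' s s' : ℕ} (h : x < x') : (tk x c s : Tri g) < tk x' c' s' :=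
  tk_lt.2 (Or.inl h)

theorem tk_inj {x c s x' c' s' : ℕ} (h : (tk x c s : Tri g) = tk x' c' s') :
    x = x' ∧ c = c' ∧ s = s' := by
  have h' : ((x, c, s) : ℕ × ℕ × ℕ) = (x', c', s') := h
  simpa using h'

theorem tk_mem0 {x s : ℕ} : (tk x 0 s : Tri g) ∈ TD g := tk_mem.2 ⟨by omega, by omega⟩
theorem tk_mem2 {x s : ℕ} : (tk x 2 s : Tri g) ∈ TD g := tk_mem.2 ⟨by omega, by omega⟩
theorem tk_mem3 {x s : ℕ} : (tk x 3 s : Tri g) ∈ TD g := tk_mem.2 ⟨by omega, by omega⟩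
theorem tk_mem1 {x s : ℕ} (h : s ≤ x) : (tk x 1 s : Tri g) ∈ TD g :=
  tk_mem.2 ⟨by omega, fun _ => h⟩

section
variable {A B : Set (Tri g)} {m : ℕ}

/-- the middle part of a gap consists of label elements -/
theorem Gap.c_eq_one (h : Gap (TD g) m A B) {x c s : ℕ}
    (hy : (tk x c s : Tri g) ∈ TD g \ (A ∪ B)) : c = 1 := by
  have h0 : ∀ x s, (tk x 0 s : Tri g) ∉ TD g \ (A ∪ B) := by
    intro x s hy
    refine absurd h.fin ?_
    refine Set.Infinite.mono (s := (fun s' => (tk x 0 s' : Tri g)) '' (Set.Ioi s)) ?_ ?_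
    · rintro _ ⟨s', hs', rfl⟩
      exact (h.fdF tk_mem0 tk_mem0 (tk_lt_01 (by omega) hs') (fd01 (by omega))).1 hy
    · refine Set.Infinite.image ?_ (Set.Ioi_infinite s)
      intro a _ b _ hab
      exact (tk_inj hab).2.2
  have h2 : ∀ x s, (tk x 2 s : Tri g) ∉ TD g \ (A ∪ B) := by
    intro x s hy
    refine absurd h.fin ?_
    refine Set.Infinite.mono (s := (fun s' => (tk x 2 s' : Tri g)) '' (Set.Ioi s)) ?_ ?_
    · rintro _ ⟨s', hs', rfl⟩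
      exact (h.fdF tk_mem2 tk_mem2 (tk_lt_2 hs') fd2).2 hy
    · refine Set.Infinite.image ?_ (Set.Ioi_infinite s)
      intro a _ b _ hab
      exact (tk_inj hab).2.2
  have hc := (tk_mem.1 hy.1).1
  by_contra hne
  have hcc : c = 0 ∨ c = 2 ∨ c = 3 := by omega
  rcases hcc with rfl | rfl | rfl
  · exact h0 _ _ hy
  · exact h2 _ _ hy
  · by_cases hs : Fa (g x) s
    · exact h2 x 0 ((h.fdF tk_mem2 tk_mem3 (tk_lt_c (by omega)) (fd3a hs)).2 hy)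
    · exact h0 (x + 1) 0 ((h.fdF tk_mem3 tk_mem0 (tk_lt_x (by omega)) (fd3b hs)).1 hy)

theorem Gap.label (h : Gap (TD g) (m + 1) A B) :
    TD g \ (A ∪ B) = (fun s => (tk m 1 s : Tri g)) '' Set.Iic m := by
  have hne : (TD g \ (A ∪ B)).Nonempty := by
    rw [← Set.ncard_pos h.fin, h.card]
    omega
  obtain ⟨⟨x, c, s⟩, hy⟩ := hne
  change (tk x c s : Tri g) ∈ TD g \ (A ∪ B) at hy
  have hc := h.c_eq_one hy
  subst hc
  have hsx : s ≤ x := (tk_mem.1 hy.1).2 rfl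
  have hall : ∀ s' ≤ x, (tk x 1 s' : Tri g) ∈ TD g \ (A ∪ B) := by
    intro s' hs'
    rcases lt_trichotomy s s' with h1 | h1 | h1
    · exact (h.fdF (tk_mem1 hsx) (tk_mem1 hs') (tk_lt_01 le_rfl h1) (fd01 le_rfl)).1 hy
    · subst h1; exact hy
    · exact (h.fdF (tk_mem1 hs') (tk_mem1 hsx) (tk_lt_01 le_rfl h1) (fd01 le_rfl)).2 hy
  have hconv : ∀ w ∈ TD g, ∀ a ∈ TD g \ (A ∪ B), ∀ b ∈ TD g \ (A ∪ B), a < w → w < b →
      w ∈ TD g \ (A ∪ B) := by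
    intro w hw a ha b hb haw hwb
    refine ⟨hw, ?_⟩
    rintro (hA | hB)
    · exact ha.2 (Or.inl (h.low w hA a ha.1 haw))
    · exact hb.2 (Or.inr (h.up w hB b hb.1 hwb))
  have heq : TD g \ (A ∪ B) = (fun s => (tk x 1 s : Tri g)) '' Set.Iic x := by
    apply Set.Subset.antisymm
    · rintro ⟨x', c', s'⟩ hy'
      change (tk x' c' s' : Tri g) ∈ TD g \ (A ∪ B) at hy'
      have hc := h.c_eq_one hy'
      subst hc
      have hs' : s' ≤ x' := (tk_mem.1 hy'.1).2 rfl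
      rcases lt_trichotomy x x' with h1 | h1 | h1
      · exfalso
        have := h.c_eq_one (hconv (tk x 2 0) tk_mem2 _ hy _ hy' (tk_lt_c (by omega)) (tk_lt_x h1))
        omega
      · subst h1
        exact ⟨s', hs', rfl⟩
      · exfalso
        have := h.c_eq_one (hconv (tk x' 2 0) tk_mem2 _ hy' _ hy (tk_lt_c (by omega)) (tk_lt_x h1))
        omega
    · rintro _ ⟨s', hs', rfl⟩
      exact hall s' hs'
  have hcard := h.card
  rw [heq, Set.ncard_image_of_injective _ (fun a b hab => (tk_inj hab).2.2)] at hcard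
  have : (Set.Iic x).ncard = x + 1 := by
    rw [Set.ncard_eq_toFinset_card']
    simp
  have hx : x = m := by omega
  rw [heq, hx]

theorem Gap.inf_fa (h : Gap (TD g) 0 A B) {x : ℕ} (hA : (tk x 1 0 : Tri g) ∈ A)
    (hB : (tk (x + 1) 1 0 : Tri g) ∈ B) : {s | Fa (g x) s}.Infinite := by
  have hF : ∀ w ∈ TD g, w ∈ A ∨ w ∈ B := by
    intro w hw
    by_contra hcon
    have hmem : w ∈ TD g \ (A ∪ B) := ⟨hw, hcon⟩
    have := (Set.ncard_eq_zero h.fin).1 h.card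
    rw [this] at hmem
    exact hmem
  -- the whole of `(x, 2, ·)` lies in `A`
  have h2 : ∀ s, (tk x 2 s : Tri g) ∈ A := by
    intro s
    by_contra hcon
    have hs : (tk x 2 s : Tri g) ∈ B := (hF _ tk_mem2).resolve_left hcon
    have hallB : ∀ s', (tk x 2 s' : Tri g) ∈ B := by
      intro s'
      rcases lt_trichotomy s s' with h1 | h1 | h1
      · exact h.fdB tk_mem2 (tk_lt_2 h1) fd2 hs
      · subst h1; exact hs
      · exact h.up _ hs _ tk_mem2 (tk_lt_2 h1)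
    -- then `A` would have finitely many elements above `(x,1,0)`
    refine infinite_of_nomax h.nomax hA ?_
    refine ((Set.finite_Iic x).image (fun t => (tk x 1 t : Tri g))).subset ?_
    rintro ⟨x', c', t⟩ ⟨hwA, hw⟩
    change (tk x' c' t : Tri g) ∈ A at hwA
    change (tk x 1 0 : Tri g) ≤ tk x' c' t at hw
    have hlt : (tk x' c' t : Tri g) < tk x 2 (t + 1) := h.sep _ hwA _ (hallB _)
    rw [← not_lt, tk_lt] at hw
    rw [tk_lt] at hlt
    have hx : x' = x := by omega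
    subst hx
    have hcc : c' = 1 ∨ c' = 2 := by omega
    rcases hcc with rfl | rfl
    · exact ⟨t, (tk_mem.1 (h.subA hwA)).2 rfl, rfl⟩
    · exfalso
      exact lt_irrefl _ (h.sep _ hwA _ (hallB t))
  -- the whole of `(x+1, 0, ·)` lies in `B`
  have h0 : ∀ s, (tk (x + 1) 0 s : Tri g) ∈ B := by
    intro s
    by_contra hcon
    have hs : (tk (x + 1) 0 s : Tri g) ∈ A := (hF _ tk_mem0).resolve_right hcon
    have hallA : ∀ s', (tk (x + 1) 0 s' : Tri g) ∈ A := by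
      intro s'
      rcases lt_trichotomy s s' with h1 | h1 | h1
      · exact h.fdA tk_mem0 (tk_lt_01 (by omega) h1) (fd01 (by omega)) hs
      · subst h1; exact hs
      · exact h.low _ hs _ tk_mem0 (tk_lt_01 (by omega) h1)
    refine infinite_of_nomin h.nomin hB ?_
    refine (Set.finite_singleton (tk (x + 1) 1 0 : Tri g)).subset ?_
    rintro ⟨x', c', t⟩ ⟨hwB, hw⟩
    change (tk x' c' t : Tri g) ∈ B at hwB
    change (tk x' c' t : Tri g) ≤ tk (x + 1) 1 0 at hw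
    have hlt : (tk (x + 1) 0 t : Tri g) < tk x' c' t := h.sep _ (hallA _) _ hwB
    rcases eq_or_lt_of_le hw with hw | hw
    · exact hw
    · exfalso
      rw [tk_lt] at hw hlt
      simp only [Fib] at hw hlt
      omega
  intro hfin
  refine infinite_of_nomax h.nomax (h2 0) ?_
  refine ((Set.finite_singleton (tk x 2 0 : Tri g)).union
    (hfin.image (fun t => (tk x 3 t : Tri g)))).subset ?_
  rintro ⟨x', c', t⟩ ⟨hwA, hw⟩
  change (tk x' c' t : Tri g) ∈ A at hwA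
  change (tk x 2 0 : Tri g) ≤ tk x' c' t at hw
  have hlt : (tk x' c' t : Tri g) < tk (x + 1) 0 0 := h.sep _ hwA _ (h0 _)
  have hmem := tk_mem.1 (h.subA hwA)
  rcases eq_or_lt_of_le hw with hw | hw
  · left; exact hw.symm
  · right
    have hxc : x' = x ∧ c' = 3 := by
      rw [tk_lt] at hw hlt
      simp only [Fib] at hw hlt
      omega
    obtain ⟨rfl, rfl⟩ := hxc
    refine ⟨t, ?_, rfl⟩
    show Fa (g x') t
    by_contra hfa
    have := h.fdA tk_mem0 (tk_lt_x (by omega)) (fd3b (s' := 0) hfa) hwA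
    exact lt_irrefl _ (h.sep _ this _ (h0 0))

end

/-- the label gap -/
theorem gap_label (x : ℕ) : Gap (TD g) (x + 1)
    {p : Tri g | p ∈ TD g ∧ (p.1 < x ∨ (p.1 = x ∧ p.2.1 = 0))}
    {p : Tri g | p ∈ TD g ∧ (x < p.1 ∨ (p.1 = x ∧ 2 ≤ p.2.1))} := by
  have hF : TD g \ ({p : Tri g | p ∈ TD g ∧ (p.1 < x ∨ (p.1 = x ∧ p.2.1 = 0))} ∪
      {p : Tri g | p ∈ TD g ∧ (x < p.1 ∨ (p.1 = x ∧ 2 ≤ p.2.1))}) =
      (fun s => (tk x 1 s : Tri g)) '' Set.Iic x := by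
    apply Set.Subset.antisymm
    · rintro ⟨x', c', s'⟩ ⟨hD, hn⟩
      have h1 : ¬ (x' < x ∨ (x' = x ∧ c' = 0)) := fun h => hn (Or.inl ⟨hD, h⟩)
      have h2 : ¬ (x < x' ∨ (x' = x ∧ 2 ≤ c')) := fun h => hn (Or.inr ⟨hD, h⟩)
      have hx : x' = x := by omega
      subst hx
      have hc : c' = 1 := by omega
      subst hc
      exact ⟨s', hD.2 rfl, rfl⟩
    · rintro _ ⟨s', hs', rfl⟩
      refine ⟨tk_mem1 hs', ?_⟩
      rintro (⟨_, h⟩ | ⟨_, h⟩)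
      · change x < x ∨ (x = x ∧ 1 = 0) at h
        omega
      · change x < x ∨ (x = x ∧ 2 ≤ 1) at h
        omega
  refine
    { subA := fun p hp => hp.1
      subB := fun p hp => hp.1
      low := ?_
      up := ?_
      neA := ⟨tk x 0 0, tk_mem0, Or.inr ⟨rfl, rfl⟩⟩
      neB := ⟨tk x 2 0, tk_mem2, Or.inr ⟨rfl, le_rfl⟩⟩
      nomax := ?_
      nomin := ?_
      sep := ?_
      fin := ?_
      card := ?_ }
  · rintro ⟨x', c', s'⟩ ⟨_, ha⟩ ⟨x'', c'', s''⟩ hy hlt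
    refine ⟨hy, ?_⟩
    change (tk x'' c'' s'' : Tri g) < tk x' c' s' at hlt
    rw [tk_lt] at hlt
    change x'' < x ∨ (x'' = x ∧ c'' = 0)
    change x' < x ∨ (x' = x ∧ c' = 0) at ha
    omega
  · rintro ⟨x', c', s'⟩ ⟨_, ha⟩ ⟨x'', c'', s''⟩ hy hlt
    refine ⟨hy, ?_⟩
    change (tk x' c' s' : Tri g) < tk x'' c'' s'' at hlt
    rw [tk_lt] at hlt
    change x < x'' ∨ (x'' = x ∧ 2 ≤ c'')
    change x < x' ∨ (x' = x ∧ 2 ≤ c') at ha
    omega
  · rintro ⟨x', c', s'⟩ ⟨_, ha⟩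
    change x' < x ∨ (x' = x ∧ c' = 0) at ha
    refine ⟨tk x 0 (s' + 1), ⟨tk_mem0, Or.inr ⟨rfl, rfl⟩⟩, ?_⟩
    change (tk x' c' s' : Tri g) < tk x 0 (s' + 1)
    rw [tk_lt]
    simp only [Fib]
    omega
  · rintro ⟨x', c', s'⟩ ⟨_, ha⟩
    change x < x' ∨ (x' = x ∧ 2 ≤ c') at ha
    refine ⟨tk x 2 (s' + 1), ⟨tk_mem2, Or.inr ⟨rfl, le_rfl⟩⟩, ?_⟩
    change (tk x 2 (s' + 1) : Tri g) < tk x' c' s'
    rw [tk_lt]
    rcases ha with ha | ⟨rfl, ha⟩
    · left; exact ha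
    · right
      refine ⟨rfl, ?_⟩
      rcases eq_or_lt_of_le ha with hc | hc
      · right
        exact ⟨hc, Or.inr (Or.inl ⟨rfl, by omega⟩)⟩
      · left; exact hc
  · rintro ⟨x', c', s'⟩ ⟨_, ha⟩ ⟨x'', c'', s''⟩ ⟨_, hb⟩
    change x' < x ∨ (x' = x ∧ c' = 0) at ha
    change x < x'' ∨ (x'' = x ∧ 2 ≤ c'') at hb
    change (tk x' c' s' : Tri g) < tk x'' c'' s''
    rw [tk_lt]
    omega
  · rw [hF]
    exact (Set.finite_Iic x).image _
  · rw [hF, Set.ncard_image_of_injective _ (fun a b hab => (tk_inj hab).2.2)]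
    rw [Set.ncard_eq_toFinset_card']
    simp

/-- the gap of size zero, present if infinitely many elements are alive forever -/
theorem gap_zero (x : ℕ) (h1 : {s | Fa (g x) s}.Infinite) (h2 : {s | ¬ Fa (g x) s}.Infinite) :
    Gap (TD g) 0
    {p : Tri g | p ∈ TD g ∧ (p.1 < x ∨ (p.1 = x ∧ (p.2.1 ≤ 2 ∨ Fa (g x) p.2.2)))}
    {p : Tri g | p ∈ TD g ∧ (x < p.1 ∨ (p.1 = x ∧ (3 ≤ p.2.1 ∧ ¬ Fa (g x) p.2.2)))} := by
  obtain ⟨s1, hs1⟩ := h1.nonempty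
  obtain ⟨s2, hs2⟩ := h2.nonempty
  have hF : TD g \ ({p : Tri g | p ∈ TD g ∧ (p.1 < x ∨ (p.1 = x ∧ (p.2.1 ≤ 2 ∨ Fa (g x) p.2.2)))} ∪
      {p : Tri g | p ∈ TD g ∧ (x < p.1 ∨ (p.1 = x ∧ (3 ≤ p.2.1 ∧ ¬ Fa (g x) p.2.2)))}) = ∅ := by
    apply Set.eq_empty_of_forall_notMem
    rintro ⟨x', c', s'⟩ ⟨hD, hn⟩
    apply hn
    rcases lt_trichotomy x' x with h | h | h
    · exact Or.inl ⟨hD, Or.inl h⟩
    · by_cases hfa : Fa (g x) s'
      · exact Or.inl ⟨hD, Or.inr ⟨h, Or.inr hfa⟩⟩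
      · rcases Nat.lt_or_ge 2 c' with hc | hc
        · exact Or.inr ⟨hD, Or.inr ⟨h, hc, hfa⟩⟩
        · exact Or.inl ⟨hD, Or.inr ⟨h, Or.inl hc⟩⟩
    · exact Or.inr ⟨hD, Or.inl h⟩
  have hsep : ∀ a ∈ {p : Tri g | p ∈ TD g ∧ (p.1 < x ∨ (p.1 = x ∧ (p.2.1 ≤ 2 ∨ Fa (g x) p.2.2)))},
      ∀ b ∈ {p : Tri g | p ∈ TD g ∧ (x < p.1 ∨ (p.1 = x ∧ (3 ≤ p.2.1 ∧ ¬ Fa (g x) p.2.2)))},
      a < b := by
    rintro ⟨x', c', s'⟩ ⟨hD', ha⟩ ⟨x'', c'', s''⟩ ⟨hD'', hb⟩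
    change x' < x ∨ (x' = x ∧ (c' ≤ 2 ∨ Fa (g x) s')) at ha
    change x < x'' ∨ (x'' = x ∧ (3 ≤ c'' ∧ ¬ Fa (g x) s'')) at hb
    change (tk x' c' s' : Tri g) < tk x'' c'' s''
    change (tk x' c' s' : Tri g) ∈ TD g at hD'
    rw [tk_mem] at hD'
    rw [tk_lt]
    rcases ha with ha | ⟨rfl, ha⟩
    · left
      rcases hb with hb | hb <;> omega
    · rcases hb with hb | ⟨rfl, hb, hnf⟩
      · left; exact hb
      · right
        refine ⟨rfl, ?_⟩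
        rcases ha with ha | ha
        · left; omega
        · rcases Nat.lt_or_ge c' c'' with hc | hc
          · left; exact hc
          · right
            have hcc : c' = c'' := by
              have := hD'.1
              omega
            refine ⟨hcc, Or.inr (Or.inr ⟨by omega, ?_⟩)⟩
            by_cases hEq : s' = s''
            · subst hEq; exact absurd ha hnf
            · rcases sto_total (g x'') hEq with h | h
              · exact h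
              · exact absurd (fa_of_sto ha h) hnf
  refine
    { subA := fun p hp => hp.1
      subB := fun p hp => hp.1
      low := ?_
      up := ?_
      neA := ⟨tk x 0 0, tk_mem0, Or.inr ⟨rfl, Or.inl (show 0 ≤ 2 by omega)⟩⟩
      neB := ⟨tk x 3 s2, tk_mem3, Or.inr ⟨rfl, (show 3 ≤ 3 by omega), hs2⟩⟩
      nomax := ?_
      nomin := ?_
      sep := hsep
      fin := ?_
      card := ?_ }
  · intro a ha y hy hlt
    by_contra hcon
    have hyB : y ∈ {p : Tri g | p ∈ TD g ∧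
        (x < p.1 ∨ (p.1 = x ∧ (3 ≤ p.2.1 ∧ ¬ Fa (g x) p.2.2)))} := by
      by_contra hcon2
      have : y ∈ (∅ : Set (Tri g)) := by
        rw [← hF]
        exact ⟨hy, fun h => h.elim hcon hcon2⟩
      exact this
    exact absurd (hsep a ha y hyB) (not_lt.2 hlt.le)
  · intro a ha y hy hlt
    by_contra hcon
    have hyB : y ∈ {p : Tri g | p ∈ TD g ∧ (p.1 < x ∨ (p.1 = x ∧ (p.2.1 ≤ 2 ∨ Fa (g x) p.2.2)))} := by
      by_contra hcon2
      have : y ∈ (∅ : Set (Tri g)) := by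
        rw [← hF]
        exact ⟨hy, fun h => h.elim hcon2 hcon⟩
      exact this
    exact absurd (hsep y hyB a ha) (not_lt.2 hlt.le)
  · rintro ⟨x', c', s'⟩ ⟨hD', ha⟩
    change x' < x ∨ (x' = x ∧ (c' ≤ 2 ∨ Fa (g x) s')) at ha
    change (tk x' c' s' : Tri g) ∈ TD g at hD'
    rw [tk_mem] at hD'
    obtain ⟨s3, hs3, hlt⟩ := h1.exists_gt s'
    refine ⟨tk x 3 s3, ⟨tk_mem3, Or.inr ⟨rfl, Or.inr hs3⟩⟩, ?_⟩
    change (tk x' c' s' : Tri g) < tk x 3 s3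
    rw [tk_lt]
    rcases ha with ha | ⟨rfl, ha⟩
    · left; exact ha
    · right
      refine ⟨rfl, ?_⟩
      rcases ha with ha | ha
      · left; omega
      · rcases Nat.lt_or_ge c' 3 with hc | hc
        · left; exact hc
        · right
          exact ⟨by omega, Or.inr (Or.inr ⟨hc, Or.inl ⟨hlt, ha.alive _⟩⟩)⟩
  · rintro ⟨x', c', s'⟩ ⟨hD', ha⟩
    change x < x' ∨ (x' = x ∧ (3 ≤ c' ∧ ¬ Fa (g x) s')) at ha
    rcases ha with ha | ⟨rfl, ha, hnf⟩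
    · exact ⟨tk x 3 s2, ⟨tk_mem3, Or.inr ⟨rfl, (show 3 ≤ 3 by omega), hs2⟩⟩, tk_lt.2 (Or.inl ha)⟩
    · obtain ⟨r, hr, hd⟩ := not_fa hnf
      obtain ⟨s3, hs3, hlt⟩ := h2.exists_gt r
      refine ⟨tk x' 3 s3, ⟨tk_mem3, Or.inr ⟨rfl, (show 3 ≤ 3 by omega), hs3⟩⟩, ?_⟩
      change (tk x' 3 s3 : Tri g) < tk x' c' s'
      rw [tk_lt]
      right
      refine ⟨rfl, ?_⟩
      rcases Nat.lt_or_ge 3 c' with hc | hc
      · left; exact hc
      · right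
        exact ⟨by omega, Or.inr (Or.inr ⟨le_rfl, Or.inr ⟨by omega, hd _ hlt.le⟩⟩)⟩
  · rw [hF]; exact Set.finite_empty
  · rw [hF]; exact Set.ncard_empty _

end Pool.Agent.PAC
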